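import Mathlib

/-!
Exact identities for the Cartier operator on the chain level (tame block of the cube project).
`γ j` plays the role of `p ^ j / j!`.
-/

set_option autoImplicit false

open Finset

namespace Pool.CUBE

section
variable {A R W : Type} [CommRing A] [CommRing R] [Algebra A R] [AddCommGroup W] [Module A W]

/-- re-expansion `g / P ^ m` around `Φ`, `P ^ p = Φ + p E`; `a = p t - m` -/
def rho (τ : ℕ → R →ₗ[A] W) (γ : ℕ → A) (P E : R) (J a t : ℕ) (g : R) : W :=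
  ∑ j ∈ range J, ((-1) ^ j * γ j) • τ (t + j) (g * P ^ a * E ^ j)

/-- shift of a finite sum with vanishing last term -/
theorem sum_shift {M : Type} [AddCommGroup M] (f : ℕ → M) (J : ℕ) (h0 : f 0 = 0)
    (hJ : f J = 0) : ∑ j ∈ range J, f (j + 1) = ∑ j ∈ range J, f j := by
  have h1 := Finset.sum_range_succ' f J
  have h2 := Finset.sum_range_succ f J
  rw [h0, add_zero] at h1
  rw [hJ, add_zero] at h2
  rw [← h1, h2]

variable {τ : ℕ → R →ₗ[A] W} {γ : ℕ → A} {Φ P E : R} {p : ℕ}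

/-- independence of `t` -/
theorem rho_succ (hγ : ∀ j, ((j + 1 : ℕ) : A) * γ (j + 1) = (p : A) * γ j) (J : ℕ)
    (hJ : γ J = 0) (hτ : ∀ l h, τ (l + 1) (Φ * h) = (l : A) • τ l h)
    (hP : P ^ p = Φ + (p : R) * E) (a t : ℕ) (g : R) :
    rho τ γ P E J (a + p) (t + 1) g = (t : A) • rho τ γ P E J a t g := by
  unfold rho
  have key : ∀ j, ((-1) ^ j * γ j) • τ (t + 1 + j) (g * P ^ (a + p) * E ^ j) =
      (t : A) • (((-1) ^ j * γ j) • τ (t + j) (g * P ^ a * E ^ j)) +
      (((j : A) * ((-1) ^ j * γ j)) • τ (t + j) (g * P ^ a * E ^ j)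
        - (((j + 1 : ℕ) : A) * ((-1) ^ (j + 1) * γ (j + 1))) •
          τ (t + (j + 1)) (g * P ^ a * E ^ (j + 1))) := by
    intro j
    have e1 : g * P ^ (a + p) * E ^ j = Φ * (g * P ^ a * E ^ j) +
        (p : A) • (g * P ^ a * E ^ (j + 1)) := by
      rw [pow_add, hP, Algebra.smul_def, map_natCast]
      ring
    have e2 : τ (t + 1 + j) (g * P ^ (a + p) * E ^ j) = ((t + j : ℕ) : A) •
        τ (t + j) (g * P ^ a * E ^ j) + (p : A) • τ (t + (j + 1)) (g * P ^ a * E ^ (j + 1)) := by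
      rw [e1, map_add, LinearMap.map_smul]
      have : t + 1 + j = (t + j) + 1 := by ring
      rw [this, hτ]
      rfl
    have e3 : ((j + 1 : ℕ) : A) * ((-1) ^ (j + 1) * γ (j + 1)) = -((-1) ^ j * γ j * (p : A)) := by
      calc ((j + 1 : ℕ) : A) * ((-1) ^ (j + 1) * γ (j + 1))
          = (-1) ^ (j + 1) * (((j + 1 : ℕ) : A) * γ (j + 1)) := by ring
        _ = (-1) ^ (j + 1) * ((p : A) * γ j) := by rw [hγ]
        _ = _ := by ring
    rw [e2, e3]
    generalize τ (t + j) (g * P ^ a * E ^ j) = x, τ (t + (j + 1)) (g * P ^ a * E ^ (j + 1)) = y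
    push_cast
    module
  rw [Finset.sum_congr rfl fun j _ => key j, Finset.sum_add_distrib, ← Finset.smul_sum,
    Finset.sum_sub_distrib]
  rw [sum_shift (fun j => ((j : A) * ((-1) ^ j * γ j)) • τ (t + j) (g * P ^ a * E ^ j)) J
    (by simp) (by simp [hJ])]
  simp

/-- compatibility with derivations -/
theorem rho_der (hγ : ∀ j, ((j + 1 : ℕ) : A) * γ (j + 1) = (p : A) * γ j) (J : ℕ)
    (hJ : γ J = 0) (hτ : ∀ l h, τ (l + 1) (Φ * h) = (l : A) • τ l h) (hp : 0 < p)
    (hP : P ^ p = Φ + (p : R) * E) (d : Derivation ℤ R R) (Q : R)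
    (hQ : P ^ (p - 1) * d P = Q + d E) (a m t : ℕ) (hm : a + 1 + m = p * t) (g : R) :
    ∑ j ∈ range J, ((-1) ^ j * γ j) • (τ (t + j) (d (g * P ^ (a + 1) * E ^ j)) -
        (p : A) • τ (t + j + 1) (Q * (g * P ^ (a + 1) * E ^ j))) =
      rho τ γ P E J (a + 1) t (d g) - (m : A) • rho τ γ P E J a t (d P * g) := by
  unfold rho
  -- the terms
  have key : ∀ j, ((-1) ^ j * γ j) • (τ (t + j) (d (g * P ^ (a + 1) * E ^ j)) -
        (p : A) • τ (t + j + 1) (Q * (g * P ^ (a + 1) * E ^ j))) =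
      ((-1) ^ j * γ j) • τ (t + j) (d g * P ^ (a + 1) * E ^ j)
      - (m : A) • (((-1) ^ j * γ j) • τ (t + j) (d P * g * P ^ a * E ^ j))
      + ((p : A) • (((j + 1 : ℕ) : A) * ((-1) ^ (j + 1) * γ (j + 1))) •
          τ (t + (j + 1)) (d P * g * P ^ a * E ^ (j + 1))
        - (p : A) • ((j : A) * ((-1) ^ j * γ j)) • τ (t + j) (d P * g * P ^ a * E ^ j))
      + (((j : A) * ((-1) ^ j * γ j)) • τ (t + j) (g * P ^ (a + 1) * E ^ (j - 1) * d E)
        - (((j + 1 : ℕ) : A) * ((-1) ^ (j + 1) * γ (j + 1))) •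
          τ (t + (j + 1)) (g * P ^ (a + 1) * E ^ ((j + 1) - 1) * d E)) := by
    intro j
    have e3 : ((j + 1 : ℕ) : A) * ((-1) ^ (j + 1) * γ (j + 1)) = -((-1) ^ j * γ j * (p : A)) := by
      calc ((j + 1 : ℕ) : A) * ((-1) ^ (j + 1) * γ (j + 1))
          = (-1) ^ (j + 1) * (((j + 1 : ℕ) : A) * γ (j + 1)) := by ring
        _ = (-1) ^ (j + 1) * ((p : A) * γ j) := by rw [hγ]
        _ = _ := by ring
    have e1 : d (g * P ^ (a + 1) * E ^ j) = d g * P ^ (a + 1) * E ^ j +
        (((a + 1 : ℕ) : A) • (d P * g * P ^ a * E ^ j) +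
        (j : A) • (g * P ^ (a + 1) * E ^ (j - 1) * d E)) := by
      have c1 : ∀ (n : ℕ) (y : R), ((n : ℕ) : A) • y = (n : R) * y := by
        intro n y
        rw [Algebra.smul_def, map_natCast]
      rw [Derivation.leibniz, Derivation.leibniz, Derivation.leibniz_pow, Derivation.leibniz_pow,
        c1, c1]
      simp only [smul_eq_mul, nsmul_eq_mul, Nat.add_sub_cancel]
      ring
    have hPP : P ^ (p - 1) * P = P ^ p := by
      rw [← pow_succ, Nat.sub_add_cancel hp]
    have e2 : Q * (g * P ^ (a + 1) * E ^ j) = Φ * (d P * g * P ^ a * E ^ j) +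
        ((p : A) • (d P * g * P ^ a * E ^ (j + 1)) - g * P ^ (a + 1) * E ^ j * d E) := by
      have hQ' : Q = P ^ (p - 1) * d P - d E := by rw [hQ]; ring
      rw [hQ', Algebra.smul_def, map_natCast]
      have : (P ^ (p - 1) * d P - d E) * (g * P ^ (a + 1) * E ^ j) =
          (P ^ (p - 1) * P) * (d P * g * P ^ a * E ^ j) - g * P ^ (a + 1) * E ^ j * d E := by
        ring
      rw [this, hPP, hP]
      ring
    rw [e1, e2, e3]
    simp only [map_add, map_sub, LinearMap.map_smul, hτ, Nat.add_sub_cancel]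
    have e4 : t + (j + 1) = t + j + 1 := by ring
    rw [e4]
    have hm' : ((a : A) + 1 + (m : A)) = (p : A) * (t : A) := by
      have := congrArg (fun n : ℕ => (n : A)) hm
      push_cast at this
      exact this
    have ht : (m : A) = (p : A) * (t : A) - (a : A) - 1 := by rw [← hm']; ring
    rw [ht]
    generalize τ (t + j) (d g * P ^ (a + 1) * E ^ j) = x1,
      τ (t + j) (d P * g * P ^ a * E ^ j) = x2,
      τ (t + j) (g * P ^ (a + 1) * E ^ (j - 1) * d E) = x3,
      τ (t + j + 1) (d P * g * P ^ a * E ^ (j + 1)) = x4,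
      τ (t + j + 1) (g * P ^ (a + 1) * E ^ j * d E) = x5
    push_cast
    module
  rw [Finset.sum_congr rfl fun j _ => key j, Finset.sum_add_distrib, Finset.sum_add_distrib,
    Finset.sum_sub_distrib, Finset.sum_sub_distrib, Finset.sum_sub_distrib, ← Finset.smul_sum]
  rw [sum_shift (fun j => (p : A) • ((j : A) * ((-1) ^ j * γ j)) •
    τ (t + j) (d P * g * P ^ a * E ^ j)) J (by simp) (by simp [hJ])]
  rw [sum_shift (fun j => ((j : A) * ((-1) ^ j * γ j)) •
    τ (t + j) (g * P ^ (a + 1) * E ^ (j - 1) * d E)) J (by simp) (by simp [hJ])]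
  simp

end

end Pool.CUBE
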