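import Mathlib
import Pool.Agent.H98.CUBE.Rho

/-!
The module `V(P) = R / ∑ (θ_i + 1 - z_i ∂_i P) R` over a coefficient ring `A`,
`R = A[z_0, …, z_n]`, and its Cartier operator.
-/

set_option autoImplicit false

open Finset MvPolynomial

namespace Pool.CUBE

section
variable {σ A M : Type} [CommRing A] [AddCommGroup M] [Module A M]

/-- linear map given on monomials -/
noncomputable def linMon (f : (σ →₀ ℕ) → M) : MvPolynomial σ A →ₗ[A] M :=
  (MvPolynomial.basisMonomials σ A).constr A f

theorem linMon_monomial (f : (σ →₀ ℕ) → M) (a : σ →₀ ℕ) (r : A) :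
    linMon f (monomial a r) = r • f a := by
  have h : (monomial a r : MvPolynomial σ A) = r • (MvPolynomial.basisMonomials σ A) a := by
    rw [MvPolynomial.coe_basisMonomials, MvPolynomial.smul_monomial, smul_eq_mul, mul_one]
  rw [h, map_smul, linMon, Module.Basis.constr_basis]

end

section
variable {n : ℕ} {A : Type} [CommRing A]

/-- the shift `a ↦ (a + 1) / p - 1` on exponents -/
noncomputable def dsh (p : ℕ) (a : Fin (n + 1) →₀ ℕ) : Fin (n + 1) →₀ ℕ :=
  Finsupp.equivFunOnFinite.symm fun i => (a i + 1) / p - 1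

theorem dsh_apply (p : ℕ) (a : Fin (n + 1) →₀ ℕ) (i : Fin (n + 1)) :
    dsh p a i = (a i + 1) / p - 1 := rfl

/-- the Cartier operator on numerators: `z ^ a ↦ z ^ ((a + 1) / p - 1)` if `p ∣ a_i + 1` for
all `i`, else `0` -/
noncomputable def psi (p : ℕ) : MvPolynomial (Fin (n + 1)) A →ₗ[A] MvPolynomial (Fin (n + 1)) A :=
  linMon fun a => open Classical in if ∀ i, p ∣ a i + 1 then monomial (dsh p a) 1 else 0

/-- the part of weight `N`: monomials `z ^ a` with `|a| + (n + 1) = N` -/
noncomputable def lev (N : ℕ) :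
    MvPolynomial (Fin (n + 1)) A →ₗ[A] MvPolynomial (Fin (n + 1)) A :=
  linMon fun a => if a.degree + (n + 1) = N then monomial a 1 else 0

/-- the Euler operator `θ_i = z_i ∂_i` -/
noncomputable def ez (i : Fin (n + 1)) :
    Derivation A (MvPolynomial (Fin (n + 1)) A) (MvPolynomial (Fin (n + 1)) A) :=
  (X i : MvPolynomial (Fin (n + 1)) A) • pderiv i

theorem ez_monomial (i : Fin (n + 1)) (a : Fin (n + 1) →₀ ℕ) (r : A) :
    ez i (monomial a r) = monomial a ((a i : A) * r) := by
  classical
  rw [ez, Derivation.smul_apply, pderiv_monomial, smul_eq_mul, X, monomial_mul, one_mul]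
  by_cases h : a i = 0
  · simp [h]
  · have : Finsupp.single i 1 + (a - Finsupp.single i 1) = a := by
      ext k
      by_cases hk : k = i
      · subst hk
        simp
        omega
      · simp [Ne.symm hk]
    rw [this, mul_comm]

/-- the relation operator `g ↦ (θ_i + 1) g - (θ_i P) g` -/
noncomputable def Dop (P : MvPolynomial (Fin (n + 1)) A) (i : Fin (n + 1)) :
    MvPolynomial (Fin (n + 1)) A →ₗ[A] MvPolynomial (Fin (n + 1)) A :=
  (ez (A := A) i).toLinearMap + LinearMap.id - LinearMap.mulLeft A (ez i P)

theorem Dop_apply (P : MvPolynomial (Fin (n + 1)) A) (i : Fin (n + 1))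
    (g : MvPolynomial (Fin (n + 1)) A) : Dop P i g = ez i g + g - ez i P * g := rfl

/-- relations -/
noncomputable def Rel (P : MvPolynomial (Fin (n + 1)) A) :
    Submodule A (MvPolynomial (Fin (n + 1)) A) :=
  ⨆ i, LinearMap.range (Dop P i)

/-- the module `V(P)` -/
abbrev VP (P : MvPolynomial (Fin (n + 1)) A) : Type := MvPolynomial (Fin (n + 1)) A ⧸ Rel P

/-- the class of `g` -/
noncomputable abbrev cls (P : MvPolynomial (Fin (n + 1)) A) :
    MvPolynomial (Fin (n + 1)) A →ₗ[A] VP P := (Rel P).mkQ

theorem cls_Dop (P : MvPolynomial (Fin (n + 1)) A) (i : Fin (n + 1))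
    (g : MvPolynomial (Fin (n + 1)) A) : cls P (Dop P i g) = 0 := by
  rw [Submodule.mkQ_apply, Submodule.Quotient.mk_eq_zero]
  exact Submodule.mem_iSup_of_mem i (LinearMap.mem_range_self _ _)

theorem psi_monomial (p : ℕ) (a : Fin (n + 1) →₀ ℕ) (r : A) :
    psi p (monomial a r) = open Classical in if ∀ i, p ∣ a i + 1 then monomial (dsh p a) r else 0 := by
  rw [psi, linMon_monomial]
  split_ifs
  · rw [smul_monomial, smul_eq_mul, mul_one]
  · rw [smul_zero]

theorem lev_monomial (N : ℕ) (a : Fin (n + 1) →₀ ℕ) (r : A) :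
    lev N (monomial a r) = if a.degree + (n + 1) = N then monomial a r else 0 := by
  rw [lev, linMon_monomial]
  split_ifs
  · rw [smul_monomial, smul_eq_mul, mul_one]
  · rw [smul_zero]

/-- `ψ (f(z^p) g) = f ψ(g)` -/
theorem psi_expand_mul (p : ℕ) (hp : 0 < p) (f g : MvPolynomial (Fin (n + 1)) A) :
    psi p (expand p f * g) = f * psi p g := by
  classical
  induction f using MvPolynomial.induction_on' with
  | add f1 f2 h1 h2 => rw [map_add, add_mul, map_add, h1, h2, add_mul]
  | monomial m r =>
    induction g using MvPolynomial.induction_on' with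
    | add g1 g2 h1 h2 => rw [mul_add, map_add, map_add, h1, h2, mul_add]
    | monomial a s =>
      have e1 : expand p (monomial m r : MvPolynomial (Fin (n + 1)) A) = monomial (p • m) r := by
        rw [expand_monomial, monomial_eq, Finsupp.prod_fintype _ _ (by simp)]
      rw [e1, monomial_mul, psi_monomial, psi_monomial]
      have e2 : (∀ i, p ∣ (p • m + a) i + 1) ↔ ∀ i, p ∣ a i + 1 := by
        refine forall_congr' fun i => ?_
        have : (p • m + a) i + 1 = p * m i + (a i + 1) := by simp [add_assoc]
        rw [this]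
        exact (Nat.dvd_add_right (Dvd.intro _ rfl))
      by_cases h : ∀ i, p ∣ a i + 1
      · have e3 : dsh p (p • m + a) = m + dsh p a := by
          ext i
          change ((p • m + a) i + 1) / p - 1 = m i + ((a i + 1) / p - 1)
          have : (p • m + a) i + 1 = (a i + 1) + p * m i := by simp; ring
          rw [this, Nat.add_mul_div_left _ _ hp]
          have h1 : 1 ≤ (a i + 1) / p := by
            have := Nat.le_of_dvd (Nat.succ_pos _) (h i)
            exact (Nat.one_le_div_iff hp).2 this
          omega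
        rw [if_pos h, if_pos (e2.2 h), monomial_mul, e3]
      · rw [if_neg h, if_neg (fun h' => h (e2.1 h')), mul_zero]

/-- `ψ ((θ_i + 1) g) = p (θ_i + 1) ψ g` -/
theorem psi_ez (p : ℕ) (hp : 0 < p) (i : Fin (n + 1)) (g : MvPolynomial (Fin (n + 1)) A) :
    psi p (ez i g + g) = (p : A) • (ez i (psi p g) + psi p g) := by
  classical
  induction g using MvPolynomial.induction_on' with
  | add g1 g2 h1 h2 =>
    have : ez i (g1 + g2) + (g1 + g2) = (ez i g1 + g1) + (ez i g2 + g2) := by
      rw [map_add]; ring
    rw [this, map_add, h1, h2, map_add, map_add, ← smul_add]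
    congr 1
    ring
  | monomial a s =>
    rw [ez_monomial, ← map_add, psi_monomial, psi_monomial]
    split_ifs with h
    · rw [ez_monomial, ← map_add, smul_monomial, smul_eq_mul]
      congr 1
      have h1 : 1 ≤ (a i + 1) / p := by
        have := Nat.le_of_dvd (Nat.succ_pos _) (h i)
        exact (Nat.one_le_div_iff hp).2 this
      have h2 : p * ((a i + 1) / p) = a i + 1 := Nat.mul_div_cancel' (h i)
      have h3 : ((dsh p a i : ℕ) : A) + 1 = (((a i + 1) / p : ℕ) : A) := by
        rw [dsh_apply]
        have : ((a i + 1) / p - 1) + 1 = (a i + 1) / p := by omega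
        calc (((a i + 1) / p - 1 : ℕ) : A) + 1 = ((((a i + 1) / p - 1) + 1 : ℕ) : A) := by
              push_cast; ring
          _ = _ := by rw [this]
      have h4 : (p : A) * (((a i + 1) / p : ℕ) : A) = (a i : A) + 1 := by
        rw [← Nat.cast_mul, h2]
        push_cast
        ring
      calc (a i : A) * s + s = ((a i : A) + 1) * s := by ring
        _ = ((p : A) * (((a i + 1) / p : ℕ) : A)) * s := by rw [h4]
        _ = (p : A) * ((((dsh p a i : ℕ) : A) + 1) * s) := by rw [h3]; ring
        _ = _ := by ring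
    · simp

/-- weights add -/
theorem lev_mul {Φ : MvPolynomial (Fin (n + 1)) A} {D : ℕ} (hΦ : Φ.IsHomogeneous D) (N : ℕ)
    (g : MvPolynomial (Fin (n + 1)) A) : lev (N + D) (Φ * g) = Φ * lev N g := by
  classical
  have key : ∀ m : Fin (n + 1) →₀ ℕ, m.degree = D → ∀ r : A, ∀ g : MvPolynomial (Fin (n + 1)) A,
      lev (N + D) (monomial m r * g) = monomial m r * lev N g := by
    intro m hm r g
    induction g using MvPolynomial.induction_on' with
    | add g1 g2 h1 h2 => rw [mul_add, map_add, map_add, h1, h2, mul_add]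
    | monomial a s =>
      rw [monomial_mul, lev_monomial, lev_monomial]
      have : (m + a).degree + (n + 1) = N + D ↔ a.degree + (n + 1) = N := by
        rw [map_add, hm]
        omega
      by_cases h : a.degree + (n + 1) = N
      · rw [if_pos h, if_pos (this.2 h), monomial_mul]
      · rw [if_neg h, if_neg (fun h' => h (this.1 h')), mul_zero]
  conv_lhs => rw [Φ.as_sum, Finset.sum_mul, map_sum]
  conv_rhs => rw [Φ.as_sum, Finset.sum_mul]
  refine Finset.sum_congr rfl fun m hm => key m ?_ _ _
  exact hΦ.degree_eq_sum_deg_support hm ▸ rfl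

end

end Pool.CUBE
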