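import Mathlib
import Pool.Agent.H98.CUBE.Tame

/-!
The Cartier operator `Psi : V(P) → V(P')`.
-/

set_option autoImplicit false

open Finset MvPolynomial

namespace Pool.CUBE

section
variable {n : ℕ} {A : Type} [CommRing A]

/-- the sum of the Euler operators on the part of weight `N` -/
theorem sum_ez_lev (N : ℕ) (g : MvPolynomial (Fin (n + 1)) A) :
    ∑ i, (ez i (lev N g) + lev N g) = (N : A) • lev N g := by
  classical
  induction g using MvPolynomial.induction_on' with
  | add g1 g2 h1 h2 =>
    rw [map_add, smul_add, ← h1, ← h2, ← Finset.sum_add_distrib]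
    refine Finset.sum_congr rfl fun i _ => ?_
    rw [map_add]
    ring
  | monomial a s =>
    rw [lev_monomial]
    split_ifs with h
    · have h1 : ∀ i, ez i (monomial a s : MvPolynomial (Fin (n + 1)) A) + monomial a s =
          (((a i + 1 : ℕ) : A)) • monomial a s := by
        intro i
        rw [ez_monomial, ← map_add, smul_monomial, smul_eq_mul]
        congr 1
        push_cast
        ring
      rw [Finset.sum_congr rfl fun i _ => h1 i, ← Finset.sum_smul]
      congr 1
      rw [← h, ← Nat.cast_sum]
      congr 1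
      rw [Finset.sum_add_distrib, Finsupp.degree_eq_sum]
      simp
    · simp

/-- Euler's relation for a homogeneous polynomial -/
theorem sum_ez {P : MvPolynomial (Fin (n + 1)) A} {D : ℕ} (hP : P.IsHomogeneous D) :
    ∑ i, ez i P = (D : A) • P := by
  classical
  have key : ∀ m : Fin (n + 1) →₀ ℕ, m.degree = D → ∀ r : A,
      ∑ i, ez i (monomial m r) = (D : A) • monomial m r := by
    intro m hm r
    rw [Finset.sum_congr rfl fun i _ => ez_monomial i m r, ← map_sum, smul_monomial, smul_eq_mul]
    congr 1
    rw [← Finset.sum_mul, ← Nat.cast_sum, ← Finsupp.degree_eq_sum, hm]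
  have h2 : ∀ i, ez i P = ∑ m ∈ P.support, ez i (monomial m (coeff m P)) := by
    intro i
    conv_lhs => rw [P.as_sum]
    rw [map_sum]
  rw [Finset.sum_congr rfl fun i _ => h2 i, Finset.sum_comm]
  conv_rhs => rw [P.as_sum, Finset.smul_sum]
  refine Finset.sum_congr rfl fun m hm => key m ?_ _
  exact hP.degree_eq_sum_deg_support hm ▸ rfl

/-- the relation `[P g] = m [g]` for `g` of weight `D m` -/
theorem cls_P_mul {P : MvPolynomial (Fin (n + 1)) A} {D : ℕ} (hP : P.IsHomogeneous D)
    (hD : IsUnit (D : A)) (m : ℕ) (g : MvPolynomial (Fin (n + 1)) A) :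
    cls P (P * lev (D * m) g) = (m : A) • cls P (lev (D * m) g) := by
  have h1 : ∑ i, Dop P i (lev (D * m) g) =
      ((D * m : ℕ) : A) • lev (D * m) g - (D : A) • (P * lev (D * m) g) := by
    have : ∀ i, Dop P i (lev (D * m) g) = (ez i (lev (D * m) g) + lev (D * m) g) -
        ez i P * lev (D * m) g := fun i => Dop_apply P i _
    rw [Finset.sum_congr rfl fun i _ => this i, Finset.sum_sub_distrib, sum_ez_lev,
      ← Finset.sum_mul, sum_ez hP, smul_mul_assoc]
  have h2 : cls P (∑ i, Dop P i (lev (D * m) g)) = 0 := by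
    rw [map_sum]
    exact Finset.sum_eq_zero fun i _ => cls_Dop P i _
  rw [h1, map_sub, map_smul, map_smul, sub_eq_zero] at h2
  have h3 : (D : A) • ((m : A) • cls P (lev (D * m) g)) =
      (D : A) • cls P (P * lev (D * m) g) := by
    rw [← h2, smul_smul]
    push_cast
    rfl
  obtain ⟨u, hu⟩ := hD
  have h4 := congrArg (fun x => (((u⁻¹ : Aˣ) : A)) • x) h3
  simp only [smul_smul] at h4
  rw [← hu] at h4
  simp only [Units.inv_mul, one_smul, ← mul_assoc, one_mul] at h4
  exact h4.symm

/-- `ψ` and weights -/
theorem psi_lev (p : ℕ) (hp : 0 < p) (N : ℕ) (g : MvPolynomial (Fin (n + 1)) A) :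
    psi p (lev (p * N) g) = lev N (psi p g) := by
  classical
  induction g using MvPolynomial.induction_on' with
  | add g1 g2 h1 h2 => rw [map_add, map_add, h1, h2, map_add, map_add]
  | monomial a s =>
    rw [lev_monomial, psi_monomial]
    by_cases h : ∀ i, p ∣ a i + 1
    · rw [if_pos h, lev_monomial]
      have h1 : a.degree + (n + 1) = p * ((dsh p a).degree + (n + 1)) := by
        have e1 : a.degree + (n + 1) = ∑ i, (a i + 1) := by
          rw [Finset.sum_add_distrib, Finsupp.degree_eq_sum]
          simp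
        have e2 : (dsh p a).degree + (n + 1) = ∑ i, (dsh p a i + 1) := by
          rw [Finset.sum_add_distrib, Finsupp.degree_eq_sum]
          simp
        rw [e1, e2, Finset.mul_sum]
        refine Finset.sum_congr rfl fun i _ => ?_
        rw [dsh_apply]
        have h1 : 1 ≤ (a i + 1) / p := by
          have := Nat.le_of_dvd (Nat.succ_pos _) (h i)
          exact (Nat.one_le_div_iff hp).2 this
        have h2 : p * ((a i + 1) / p) = a i + 1 := Nat.mul_div_cancel' (h i)
        have h3 : ((a i + 1) / p - 1) + 1 = (a i + 1) / p := by omega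
        rw [h3, h2]
      have h2 : a.degree + (n + 1) = p * N ↔ (dsh p a).degree + (n + 1) = N := by
        rw [h1]
        exact ⟨fun h' => Nat.eq_of_mul_eq_mul_left hp h', fun h' => by rw [h']⟩
      by_cases h3 : (dsh p a).degree + (n + 1) = N
      · rw [if_pos h3, if_pos (h2.2 h3), psi_monomial, if_pos h]
      · rw [if_neg h3, if_neg (fun h' => h3 (h2.1 h')), map_zero]
    · rw [if_neg h, map_zero]
      split_ifs
      · rw [psi_monomial, if_neg h]
      · rw [map_zero]

/-- weights and Euler operators -/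
theorem ez_lev (N : ℕ) (i : Fin (n + 1)) (g : MvPolynomial (Fin (n + 1)) A) :
    lev N (ez i g) = ez i (lev N g) := by
  classical
  induction g using MvPolynomial.induction_on' with
  | add g1 g2 h1 h2 => rw [map_add, map_add, h1, h2, map_add, map_add]
  | monomial a s =>
    rw [ez_monomial, lev_monomial, lev_monomial]
    split_ifs
    · rw [ez_monomial]
    · rw [map_zero]

theorem lev_lev (N : ℕ) (g : MvPolynomial (Fin (n + 1)) A) : lev N (lev N g) = lev N g := by
  classical
  induction g using MvPolynomial.induction_on' with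
  | add g1 g2 h1 h2 => rw [map_add, map_add, h1, h2]
  | monomial a s =>
    rw [lev_monomial]
    split_ifs with h
    · rw [lev_monomial, if_pos h]
    · rw [map_zero]

/-- the maps `τ_l` -/
noncomputable def tau (p D : ℕ) (P' : MvPolynomial (Fin (n + 1)) A) (l : ℕ) :
    MvPolynomial (Fin (n + 1)) A →ₗ[A] VP P' :=
  (cls P').comp ((psi p).comp (lev (p * (D * l))))

theorem tau_apply (p D : ℕ) (P' : MvPolynomial (Fin (n + 1)) A) (l : ℕ)
    (h : MvPolynomial (Fin (n + 1)) A) :
    tau p D P' l h = cls P' (psi p (lev (p * (D * l)) h)) := rfl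

theorem expand_isHomogeneous {P' : MvPolynomial (Fin (n + 1)) A} {D : ℕ}
    (hP' : P'.IsHomogeneous D) (p : ℕ) : (expand p P').IsHomogeneous (p * D) := by
  classical
  rw [P'.as_sum, map_sum]
  refine IsHomogeneous.sum _ _ _ fun m hm => ?_
  have e1 : expand p (monomial m (coeff m P') : MvPolynomial (Fin (n + 1)) A) =
      monomial (p • m) (coeff m P') := by
    rw [expand_monomial, monomial_eq, Finsupp.prod_fintype _ _ (by simp)]
  rw [e1]
  refine isHomogeneous_monomial _ ?_
  rw [map_nsmul, smul_eq_mul]
  congr 1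
  exact hP'.degree_eq_sum_deg_support hm ▸ rfl

theorem tau_succ {p D : ℕ} (hp : 0 < p) {P' : MvPolynomial (Fin (n + 1)) A}
    (hP' : P'.IsHomogeneous D) (hD : IsUnit (D : A)) (l : ℕ)
    (h : MvPolynomial (Fin (n + 1)) A) :
    tau p D P' (l + 1) (expand p P' * h) = (l : A) • tau p D P' l h := by
  rw [tau_apply, tau_apply]
  have e1 : p * (D * (l + 1)) = p * (D * l) + p * D := by ring
  rw [e1, lev_mul (expand_isHomogeneous hP' p), psi_expand_mul p hp, psi_lev p hp,
    cls_P_mul hP' hD]

theorem tau_rel {p D : ℕ} (hp : 0 < p) {P' : MvPolynomial (Fin (n + 1)) A}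
    (hP' : P'.IsHomogeneous D) (i : Fin (n + 1)) (l : ℕ) (h : MvPolynomial (Fin (n + 1)) A) :
    tau p D P' l (ez i h + h) - (p : A) • tau p D P' (l + 1) (expand p (ez i P') * h) = 0 := by
  rw [tau_apply, tau_apply]
  have hE : (ez i P').IsHomogeneous D := by
    rw [P'.as_sum, map_sum]
    refine IsHomogeneous.sum _ _ _ fun m hm => ?_
    rw [ez_monomial]
    exact isHomogeneous_monomial _ (hP'.degree_eq_sum_deg_support hm ▸ rfl)
  have e1 : p * (D * (l + 1)) = p * (D * l) + p * D := by ring
  rw [e1, lev_mul (expand_isHomogeneous hE p), psi_expand_mul p hp, map_add, ez_lev,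
    psi_ez p hp, map_smul, ← smul_sub, ← map_sub]
  have : ez i (psi p (lev (p * (D * l)) h)) + psi p (lev (p * (D * l)) h) -
      ez i P' * psi p (lev (p * (D * l)) h) = Dop P' i (psi p (lev (p * (D * l)) h)) :=
    (Dop_apply P' i _).symm
  rw [this, cls_Dop, smul_zero]

end

end Pool.CUBE
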