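import Mathlib
import Pool.Agent.H98.CUBE.Psi

/-!
The Cartier operator `Psi : V(P) → V(P')`.
-/

set_option autoImplicit false

open Finset MvPolynomial

namespace Pool.CUBE

/-- Frobenius data at finite level: `P ^ p = P'(z ^ p) + p E`, `γ j = p ^ j / j!`, zero for
`j ≥ J`. -/
structure FD (n : ℕ) (A : Type) [CommRing A] where
  p : ℕ
  D : ℕ
  J : ℕ
  P : MvPolynomial (Fin (n + 1)) A
  P' : MvPolynomial (Fin (n + 1)) A
  E : MvPolynomial (Fin (n + 1)) A
  γ : ℕ → A
  hp : 2 ≤ p
  hD : IsUnit (D : A)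
  hP : P.IsHomogeneous D
  hP' : P'.IsHomogeneous D
  hPE : P ^ p = expand p P' + (p : MvPolynomial (Fin (n + 1)) A) * E
  hPd : ∀ i, P ^ (p - 1) * pderiv i P = X i ^ (p - 1) * expand p (pderiv i P') + pderiv i E
  γ0 : γ 0 = 1
  γs : ∀ j, ((j + 1 : ℕ) : A) * γ (j + 1) = (p : A) * γ j
  γJ : ∀ j, J ≤ j → γ j = 0
  γmul : ∀ i j, γ i * γ j = ((i + j).choose i : A) * γ (i + j)

namespace FD
variable {n : ℕ} {A : Type} [CommRing A] (F : FD n A)

theorem hp0 : 0 < F.p := lt_of_lt_of_le (by norm_num) F.hp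

theorem hPe (i : Fin (n + 1)) :
    F.P ^ (F.p - 1) * ez i F.P = expand F.p (ez i F.P') + ez i F.E := by
  have h1 : ∀ g : MvPolynomial (Fin (n + 1)) A, ez i g = X i * pderiv i g := fun g => rfl
  have h2 : (X i : MvPolynomial (Fin (n + 1)) A) * X i ^ (F.p - 1) = X i ^ F.p := by
    rw [← pow_succ', Nat.sub_add_cancel F.hp0]
  calc F.P ^ (F.p - 1) * ez i F.P = X i * (F.P ^ (F.p - 1) * pderiv i F.P) := by rw [h1]; ring
    _ = (X i * X i ^ (F.p - 1)) * expand F.p (pderiv i F.P') + X i * pderiv i F.E := by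
      rw [F.hPd]; ring
    _ = _ := by rw [h2, h1, h1, map_mul, expand_X]

/-- re-expansion followed by the Cartier operator: `g` of weight `D m`, `a = p t - m` -/
noncomputable def r (a t : ℕ) (g : MvPolynomial (Fin (n + 1)) A) : VP F.P' :=
  rho (tau F.p F.D F.P') F.γ F.P F.E F.J a t g

theorem r_add (a t : ℕ) (g h : MvPolynomial (Fin (n + 1)) A) :
    F.r a t (g + h) = F.r a t g + F.r a t h := by
  unfold r rho
  rw [← Finset.sum_add_distrib]
  refine Finset.sum_congr rfl fun j _ => ?_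
  rw [← smul_add, ← map_add]
  congr 2
  ring

theorem r_smul (a t : ℕ) (c : A) (g : MvPolynomial (Fin (n + 1)) A) :
    F.r a t (c • g) = c • F.r a t g := by
  unfold r rho
  rw [Finset.smul_sum]
  refine Finset.sum_congr rfl fun j _ => ?_
  rw [smul_mul_assoc, smul_mul_assoc, map_smul, smul_comm]

theorem r_succ (a t : ℕ) (g : MvPolynomial (Fin (n + 1)) A) :
    F.r (a + F.p) (t + 1) g = (t : A) • F.r a t g :=
  rho_succ F.γs F.J (F.γJ _ le_rfl) (fun l h => tau_succ F.hp0 F.hP' F.hD l h) F.hPE a t g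

/-- the coefficient `(m - 1)! / (t - 1)!` -/
def K (m t : ℕ) : ℕ := (m - 1).descFactorial (m - t)

theorem K_mul (m t : ℕ) (ht : 1 ≤ t) (h : t + 1 ≤ m) : K m (t + 1) * t = K m t := by
  unfold K
  have e : m - t = (m - (t + 1)) + 1 := by omega
  rw [e, Nat.descFactorial_succ, mul_comm]
  congr 1
  omega

theorem K_succ (m t : ℕ) (ht : 1 ≤ t) (h : t ≤ m) : K (m + 1) t = m * K m t := by
  unfold K
  obtain ⟨m', rfl⟩ : ∃ m', m = m' + 1 := ⟨m - 1, by omega⟩
  have e : m' + 1 + 1 - t = (m' + 1 - t) + 1 := by omega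
  rw [e]
  simp only [Nat.add_sub_cancel]
  rw [Nat.succ_descFactorial_succ]

/-- the Cartier operator on numerators of weight `D m` -/
noncomputable def psiT (m t : ℕ) (g : MvPolynomial (Fin (n + 1)) A) : VP F.P' :=
  ((K m t : ℕ) : A) • F.r (F.p * t - m) t g

theorem psiT_succ (m t : ℕ) (ht : 1 ≤ t) (h : t + 1 ≤ m) (h' : m ≤ F.p * t)
    (g : MvPolynomial (Fin (n + 1)) A) : F.psiT m (t + 1) g = F.psiT m t g := by
  unfold psiT
  have e : F.p * (t + 1) - m = (F.p * t - m) + F.p := by
    rw [mul_add, mul_one]; omega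
  rw [e, F.r_succ, smul_smul, ← K_mul m t ht h]
  push_cast
  rfl

theorem psiT_indep (m t t' : ℕ) (ht : 1 ≤ t) (htt : t ≤ t') (h : t' ≤ m) (h' : m ≤ F.p * t)
    (g : MvPolynomial (Fin (n + 1)) A) : F.psiT m t' g = F.psiT m t g := by
  induction t', htt using Nat.le_induction with
  | base => rfl
  | succ k hk ih =>
    rw [F.psiT_succ m k (le_trans ht hk) h (le_trans h' (Nat.mul_le_mul_left _ hk)), ih (by omega)]

/-- the smallest `t` with `m ≤ p t` -/
def tm (m : ℕ) : ℕ := (m + F.p - 1) / F.p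

theorem tm_spec (m : ℕ) (hm : 1 ≤ m) : 1 ≤ F.tm m ∧ F.tm m ≤ m ∧ m ≤ F.p * F.tm m := by
  have hp := F.hp
  have hp0 := F.hp0
  unfold tm
  refine ⟨?_, ?_, ?_⟩
  · rw [Nat.one_le_div_iff hp0]; omega
  · rw [Nat.div_le_iff_le_mul_add_pred hp0]
    have : 2 * m ≤ F.p * m := Nat.mul_le_mul_right m hp
    omega
  · have := Nat.lt_mul_div_succ (m + F.p - 1) hp0
    rw [mul_add, mul_one] at this
    omega

theorem tm_le (m t : ℕ) (h : m ≤ F.p * t) : F.tm m ≤ t := by
  unfold tm
  rw [Nat.div_le_iff_le_mul_add_pred F.hp0]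
  omega

/-- the Cartier operator on numerators -/
noncomputable def psi0 : MvPolynomial (Fin (n + 1)) A →ₗ[A] VP F.P' :=
  linMon fun a => open Classical in if F.D ∣ a.degree + (n + 1) then
    F.psiT ((a.degree + (n + 1)) / F.D) (F.tm ((a.degree + (n + 1)) / F.D)) (monomial a 1) else 0

theorem psi0_lev (hD : 0 < F.D) (m : ℕ) (hm : 1 ≤ m) (t : ℕ) (ht : t ≤ m) (ht' : m ≤ F.p * t)
    (g : MvPolynomial (Fin (n + 1)) A) :
    F.psi0 (lev (F.D * m) g) = F.psiT m t (lev (F.D * m) g) := by
  classical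
  have hadd : ∀ g h, F.psiT m t (g + h) = F.psiT m t g + F.psiT m t h := by
    intro g h
    unfold psiT
    rw [F.r_add, smul_add]
  have hsm : ∀ (c : A) g, F.psiT m t (c • g) = c • F.psiT m t g := by
    intro c g
    unfold psiT
    rw [F.r_smul, smul_comm]
  induction g using MvPolynomial.induction_on' with
  | add g1 g2 h1 h2 => rw [map_add, map_add, h1, h2, hadd]
  | monomial a s =>
    rw [lev_monomial]
    split_ifs with h
    · rw [psi0, linMon_monomial, if_pos ⟨m, h⟩]
      have e : (a.degree + (n + 1)) / F.D = m := by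
        rw [h, Nat.mul_div_cancel_left _ hD]
      rw [e, ← F.psiT_indep m (F.tm m) t (F.tm_spec m hm).1 (F.tm_le m t ht') ht
        (F.tm_spec m hm).2.2, ← hsm, smul_monomial, smul_eq_mul, mul_one]
    · have h0 : F.psiT m t 0 = 0 := by
        have := hsm 0 0
        rwa [zero_smul, zero_smul] at this
      rw [map_zero, h0]

theorem psi0_of_not_dvd (a : Fin (n + 1) →₀ ℕ) (s : A) (h : ¬ F.D ∣ a.degree + (n + 1)) :
    F.psi0 (monomial a s) = 0 := by
  rw [psi0, linMon_monomial, if_neg h, smul_zero]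

/-- the Cartier operator kills the relations -/
theorem psi0_Dop (hD : 0 < F.D) (i : Fin (n + 1)) (g : MvPolynomial (Fin (n + 1)) A) :
    F.psi0 (Dop F.P i g) = 0 := by
  classical
  -- the main case
  have main : ∀ m : ℕ, 1 ≤ m → ∀ g, F.psi0 (Dop F.P i (lev (F.D * m) g)) = 0 := by
    intro m hm g
    set g' := lev (F.D * m) g with hg'
    have hE : (ez i F.P).IsHomogeneous F.D := by
      rw [F.P.as_sum, map_sum]
      refine IsHomogeneous.sum _ _ _ fun m hm => ?_
      rw [ez_monomial]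
      exact isHomogeneous_monomial _ (F.hP.degree_eq_sum_deg_support hm ▸ rfl)
    have h1 : ez i g' + g' = lev (F.D * m) (ez i g + g) := by
      rw [map_add, ez_lev]
    have h2 : ez i F.P * g' = lev (F.D * (m + 1)) (ez i F.P * g) := by
      have e1 : F.D * (m + 1) = F.D * m + F.D := by ring
      rw [e1, lev_mul hE]
    obtain ⟨t1, t2, t3⟩ := F.tm_spec (m + 1) (by omega)
    have t4 : F.tm (m + 1) ≤ m := by
      refine F.tm_le _ _ ?_
      have : 2 * m ≤ F.p * m := Nat.mul_le_mul_right m F.hp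
      omega
    set t := F.tm (m + 1) with ht
    obtain ⟨a, ha⟩ : ∃ a, F.p * t = a + 1 + m := ⟨F.p * t - (m + 1), by omega⟩
    rw [Dop_apply, map_sub, h1, h2, F.psi0_lev hD m hm t t4 (by omega),
      F.psi0_lev hD (m + 1) (by omega) t (by omega) t3, ← h1, ← h2]
    unfold psiT
    have e1 : F.p * t - m = a + 1 := by omega
    have e2 : F.p * t - (m + 1) = a := by omega
    rw [e1, e2, K_succ m t t1 t4]
    have key := rho_der (τ := tau F.p F.D F.P') F.γs F.J (F.γJ _ le_rfl)
      (fun l h => tau_succ F.hp0 F.hP' F.hD l h) F.hp0 F.hPE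
      ((ez i).restrictScalars ℤ) (expand F.p (ez i F.P')) (F.hPe i) a m t ha.symm g'
    have e3 : F.r (a + 1) t (ez i g' + g') - ((m : ℕ) : A) • F.r a t (ez i F.P * g') = 0 := by
      rw [F.r_add]
      have e4 : F.r (a + 1) t (ez i g') - ((m : ℕ) : A) • F.r a t (ez i F.P * g') =
          ∑ j ∈ range F.J, ((-1) ^ j * F.γ j) •
            (tau F.p F.D F.P' (t + j) (ez i (g' * F.P ^ (a + 1) * F.E ^ j)) -
            (F.p : A) • tau F.p F.D F.P' (t + j + 1)
              (expand F.p (ez i F.P') * (g' * F.P ^ (a + 1) * F.E ^ j))) := key.symm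
      have e5 : F.r (a + 1) t (ez i g') + F.r (a + 1) t g' -
          ((m : ℕ) : A) • F.r a t (ez i F.P * g') =
          (F.r (a + 1) t (ez i g') - ((m : ℕ) : A) • F.r a t (ez i F.P * g')) +
          F.r (a + 1) t g' := by abel
      rw [e5, e4]
      unfold r rho
      rw [← Finset.sum_add_distrib]
      refine Finset.sum_eq_zero fun j _ => ?_
      rw [← smul_add]
      have := tau_rel F.hp0 F.hP' i (t + j) (g' * F.P ^ (a + 1) * F.E ^ j)
      rw [map_add] at this
      rw [show ∀ x y z : VP F.P', x - y + z = (x + z) - y from fun x y z => by abel, this,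
        smul_zero]
    have e6 := congrArg (fun x => ((K m t : ℕ) : A) • x) e3
    simp only [smul_sub, smul_zero, smul_smul] at e6
    rw [← e6]
    congr 2
    push_cast
    ring
  induction g using MvPolynomial.induction_on' with
  | add g1 g2 h1 h2 => rw [map_add, map_add, h1, h2, add_zero]
  | monomial a s =>
    by_cases h : F.D ∣ a.degree + (n + 1)
    · obtain ⟨m, hm⟩ := h
      have hm1 : 1 ≤ m := by
        rcases Nat.eq_zero_or_pos m with h0 | h0
        · rw [h0, mul_zero] at hm; omega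
        · exact h0
      have := main m hm1 (monomial a s)
      rwa [lev_monomial, if_pos hm] at this
    · -- all monomials have weight not divisible by `D`
      rw [Dop_apply, ez_monomial, ← map_add, map_sub, F.psi0_of_not_dvd _ _ h, zero_sub,
        neg_eq_zero]
      have hE : ∀ m ∈ (ez i F.P).support, m.degree = F.D := by
        have hE : (ez i F.P).IsHomogeneous F.D := by
          rw [F.P.as_sum, map_sum]
          refine IsHomogeneous.sum _ _ _ fun m hm => ?_
          rw [ez_monomial]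
          exact isHomogeneous_monomial _ (F.hP.degree_eq_sum_deg_support hm ▸ rfl)
        intro m hm
        exact hE.degree_eq_sum_deg_support hm ▸ rfl
      rw [(ez i F.P).as_sum, Finset.sum_mul, map_sum]
      refine Finset.sum_eq_zero fun m hm => ?_
      rw [monomial_mul]
      refine F.psi0_of_not_dvd _ _ fun h' => h ?_
      rw [map_add, hE m hm, add_assoc] at h'
      exact (Nat.dvd_add_right (dvd_refl _)).1 h'

/-- the Cartier operator `V(P) → V(P')` -/
noncomputable def Psi (hD : 0 < F.D) : VP F.P →ₗ[A] VP F.P' :=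
  (Rel F.P).liftQ F.psi0 (by
    rw [Rel, iSup_le_iff]
    rintro i _ ⟨g, rfl⟩
    exact F.psi0_Dop hD i g)

theorem Psi_cls (hD : 0 < F.D) (g : MvPolynomial (Fin (n + 1)) A) :
    F.Psi hD (cls F.P g) = F.psi0 g := rfl

end FD

end Pool.CUBE
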