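import Mathlib
import Pool.Agent.H98.CUBE.Psi2

/-!
The truncated Frobenius `y_N` and `Psi (y_N g) = p ^ n g`.
-/

set_option autoImplicit false

open Finset MvPolynomial

namespace Pool.CUBE

section
variable {n : ℕ} {A : Type} [CommRing A]

/-- the product `z_0 ⋯ z_n` to the power `p - 1` -/
noncomputable def Zp (n : ℕ) (A : Type) [CommRing A] (p : ℕ) : MvPolynomial (Fin (n + 1)) A :=
  monomial (Finsupp.equivFunOnFinite.symm fun _ => p - 1) 1

theorem psi_Zp (p : ℕ) (hp : 0 < p) : psi p (Zp n A p) = 1 := by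
  classical
  rw [Zp, psi_monomial, if_pos]
  · have : dsh p (Finsupp.equivFunOnFinite.symm fun _ : Fin (n + 1) => p - 1) = 0 := by
      ext i
      rw [dsh_apply]
      change (p - 1 + 1) / p - 1 = 0
      rw [Nat.sub_add_cancel hp, Nat.div_self hp]
    rw [this]
    rfl
  · intro i
    change p ∣ p - 1 + 1
    rw [Nat.sub_add_cancel hp]

/-- the pull back of a numerator -/
noncomputable def pb (p : ℕ) (g : MvPolynomial (Fin (n + 1)) A) : MvPolynomial (Fin (n + 1)) A :=
  expand p g * Zp n A p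

theorem psi_pb (p : ℕ) (hp : 0 < p) (g : MvPolynomial (Fin (n + 1)) A) :
    psi p (pb p g) = g := by
  rw [pb, psi_expand_mul p hp, psi_Zp p hp, mul_one]

theorem pb_lev (p : ℕ) (hp : 0 < p) (N : ℕ) (g : MvPolynomial (Fin (n + 1)) A) :
    pb p (lev N g) = lev (p * N) (pb p g) := by
  classical
  unfold pb
  induction g using MvPolynomial.induction_on' with
  | add g1 g2 h1 h2 => rw [map_add, map_add, add_mul, h1, h2, map_add, add_mul, map_add]
  | monomial a s =>
    have e1 : ∀ s : A, expand p (monomial a s : MvPolynomial (Fin (n + 1)) A) =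
        monomial (p • a) s := by
      intro s
      rw [expand_monomial, monomial_eq, Finsupp.prod_fintype _ _ (by simp)]
    have e2 : (p • a + (Finsupp.equivFunOnFinite.symm fun _ : Fin (n + 1) => p - 1)).degree
        + (n + 1) = p * (a.degree + (n + 1)) := by
      rw [map_add, map_nsmul, smul_eq_mul]
      have : (Finsupp.equivFunOnFinite.symm fun _ : Fin (n + 1) => p - 1).degree =
          (n + 1) * (p - 1) := by
        rw [Finsupp.degree_eq_sum]
        simp
      rw [this]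
      obtain ⟨q, rfl⟩ : ∃ q, p = q + 1 := ⟨p - 1, by omega⟩
      simp only [Nat.add_sub_cancel]
      ring
    rw [e1, Zp, monomial_mul, lev_monomial, lev_monomial, e2]
    by_cases h : a.degree + (n + 1) = N
    · rw [if_pos h, if_pos (by rw [h]), e1, monomial_mul]
    · rw [if_neg h, if_neg (fun h' => h (Nat.eq_of_mul_eq_mul_left hp h')), map_zero, zero_mul]

/-- alternating sums over a square -/
theorem alt_sum {W : Type} [AddCommGroup W] [Module A W] (γ : ℕ → A) (J : ℕ) (hJ : 1 ≤ J)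
    (γ0 : γ 0 = 1) (γJ : ∀ j, J ≤ j → γ j = 0)
    (γmul : ∀ i j, γ i * γ j = ((i + j).choose i : A) * γ (i + j)) (w : ℕ → W) :
    ∑ j ∈ range J, ∑ l ∈ range J, (γ j * ((-1) ^ l * γ l)) • w (j + l) = w 0 := by
  -- extend to the triangle
  have h1 : ∑ j ∈ range J, ∑ l ∈ range J, (γ j * ((-1) ^ l * γ l)) • w (j + l) =
      ∑ x ∈ (range J ×ˢ range J).filter (fun x => x.1 + x.2 < J),
        (γ x.1 * ((-1) ^ x.2 * γ x.2)) • w (x.1 + x.2) := by
    rw [← Finset.sum_product', Finset.sum_filter]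
    refine Finset.sum_congr rfl fun x _ => ?_
    split_ifs with h
    · rfl
    · have : γ x.1 * ((-1) ^ x.2 * γ x.2) = (-1) ^ x.2 * (γ x.1 * γ x.2) := by ring
      rw [this, γmul, γJ _ (not_lt.1 h)]
      simp
  have h2 : ∑ x ∈ (range J ×ˢ range J).filter (fun x => x.1 + x.2 < J),
        (γ x.1 * ((-1) ^ x.2 * γ x.2)) • w (x.1 + x.2) =
      ∑ k ∈ range J, ∑ x ∈ antidiagonal k, (γ x.1 * ((-1) ^ x.2 * γ x.2)) • w (x.1 + x.2) := by
    rw [Finset.sum_sigma']
    refine Finset.sum_bij' (fun x _ => ⟨x.1 + x.2, x⟩) (fun y _ => y.2) ?_ ?_ ?_ ?_ ?_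
    · intro x hx
      simp only [Finset.mem_filter, Finset.mem_product, Finset.mem_range] at hx
      simp [hx.2]
    · rintro ⟨k, x⟩ hx
      simp only [Finset.mem_sigma, Finset.mem_range, Finset.HasAntidiagonal.mem_antidiagonal] at hx
      simp only [Finset.mem_filter, Finset.mem_product, Finset.mem_range]
      omega
    · intro x _; rfl
    · rintro ⟨k, x⟩ hx
      simp only [Finset.mem_sigma, Finset.mem_range, Finset.HasAntidiagonal.mem_antidiagonal] at hx
      simp [hx.2]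
    · intro x _; rfl
  rw [h1, h2]
  have h3 : ∀ k, ∑ x ∈ antidiagonal k, (γ x.1 * ((-1) ^ x.2 * γ x.2)) • w (x.1 + x.2) =
      ((∑ x ∈ antidiagonal k, ((-1) ^ x.2 * (k.choose x.1 : ℤ)) : ℤ) : A) • (γ k • w k) := by
    intro k
    push_cast
    rw [Finset.sum_smul]
    refine Finset.sum_congr rfl fun x hx => ?_
    rw [Finset.HasAntidiagonal.mem_antidiagonal] at hx
    have : γ x.1 * ((-1) ^ x.2 * γ x.2) = (-1) ^ x.2 * (γ x.1 * γ x.2) := by ring
    rw [this, γmul, hx, smul_smul]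
    congr 1
    ring
  rw [Finset.sum_congr rfl fun k _ => h3 k]
  have h4 : ∀ k, (∑ x ∈ antidiagonal k, ((-1) ^ x.2 * (k.choose x.1 : ℤ)) : ℤ) =
      if k = 0 then 1 else 0 := by
    intro k
    have := Commute.add_pow' (Commute.all (1 : ℤ) (-1)) k
    have e : (1 : ℤ) + -1 = 0 := by norm_num
    rw [e] at this
    have h5 : ∑ x ∈ antidiagonal k, ((-1) ^ x.2 * (k.choose x.1 : ℤ)) = (0 : ℤ) ^ k := by
      rw [this]
      refine Finset.sum_congr rfl fun x _ => ?_
      simp [mul_comm]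
    rw [h5]
    split_ifs with h
    · rw [h, pow_zero]
    · exact zero_pow h
  rw [Finset.sum_eq_single_of_mem 0 (Finset.mem_range.2 hJ)]
  · rw [h4, if_pos rfl, γ0]
    simp
  · intro k _ hk
    rw [h4, if_neg hk]
    simp

namespace FD
variable (F : FD n A)

/-- the truncated Frobenius on a numerator of weight `D m`; the coefficients `c j` satisfy
`c j * K (p (m + j)) (m + j) = q * γ j` with `q = p ^ n` -/
noncomputable def yN (c : ℕ → A) (g : MvPolynomial (Fin (n + 1)) A) :
    MvPolynomial (Fin (n + 1)) A :=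
  ∑ j ∈ range F.J, c j • (pb F.p g * F.E ^ j)


theorem psi0_yN (hD : 0 < F.D) (hJ : 1 ≤ F.J) (hE : F.E.IsHomogeneous (F.p * F.D)) (m : ℕ)
    (hm : 1 ≤ m) (c : ℕ → A) (q : A)
    (hc : ∀ j, j < F.J → c j * ((K (F.p * (m + j)) (m + j) : ℕ) : A) = q * F.γ j)
    (g : MvPolynomial (Fin (n + 1)) A) :
    F.psi0 (F.yN c (lev (F.D * m) g)) = q • cls F.P' (lev (F.D * m) g) := by
  have h1 : ∀ j, lev (F.D * (F.p * (m + j))) (pb F.p (lev (F.D * m) g) * F.E ^ j) =
      pb F.p (lev (F.D * m) g) * F.E ^ j := by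
    intro j
    have e1 : F.D * (F.p * (m + j)) = F.p * (F.D * m) + (F.p * F.D) * j := by ring
    rw [e1, mul_comm (pb _ _) (F.E ^ j), lev_mul (hE.pow j), pb_lev _ F.hp0, lev_lev]
  have h2 : ∀ j, j < F.J → F.psi0 (c j • (pb F.p (lev (F.D * m) g) * F.E ^ j)) =
      q • ∑ l ∈ range F.J, (F.γ j * ((-1) ^ l * F.γ l)) •
        tau F.p F.D F.P' (m + (j + l)) (pb F.p (lev (F.D * m) g) * F.E ^ (j + l)) := by
    intro j hj
    have t1 : m + j ≤ F.p * (m + j) := by
      have : 1 * (m + j) ≤ F.p * (m + j) := Nat.mul_le_mul_right _ F.hp0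
      omega
    rw [map_smul, ← h1 j, F.psi0_lev hD (F.p * (m + j)) (by omega) (m + j) t1 le_rfl, h1 j,
      psiT, smul_smul, hc j hj, Nat.sub_self]
    unfold r rho
    rw [← smul_smul, Finset.smul_sum]
    congr 1
    refine Finset.sum_congr rfl fun l _ => ?_
    rw [smul_smul, pow_zero, mul_one, mul_assoc, ← pow_add, add_assoc]
  rw [yN, map_sum, Finset.sum_congr rfl fun j hj => h2 j (Finset.mem_range.1 hj),
    ← Finset.smul_sum]
  have h3 := alt_sum F.γ F.J hJ F.γ0 F.γJ F.γmul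
    (fun k => tau F.p F.D F.P' (m + k) (pb F.p (lev (F.D * m) g) * F.E ^ k))
  beta_reduce at h3
  rw [h3, tau_apply, pow_zero, mul_one, add_zero, ← pb_lev _ F.hp0, lev_lev, psi_pb _ F.hp0]

end FD

end

end Pool.CUBE
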