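import Mathlib
import Pool.Agent.H98.CUBE.Yn

/-!
Derivations of the coefficient ring acting on `V(P)`, horizontality of the Cartier operator.
-/

set_option autoImplicit false

open Finset MvPolynomial

namespace Pool.CUBE

section
variable {σ A : Type} [CommRing A]

/-- coefficientwise action of an additive map -/
noncomputable def cAdd (δ : A →+ A) : MvPolynomial σ A →+ MvPolynomial σ A :=
  (AddMonoidAlgebra.coeffAddEquiv.symm.toAddMonoidHom.comp
    (Finsupp.mapRange.addMonoidHom δ)).comp AddMonoidAlgebra.coeffAddEquiv.toAddMonoidHom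

theorem cAdd_monomial (δ : A →+ A) (a : σ →₀ ℕ) (r : A) :
    cAdd δ (monomial a r) = monomial a (δ r) := by
  ext m
  change δ (coeff m (monomial a r)) = _
  classical
  rw [coeff_monomial, coeff_monomial]
  split_ifs
  · rfl
  · rw [map_zero]

/-- a derivation of the coefficient ring acting coefficientwise -/
noncomputable def cD (δ : Derivation ℤ A A) :
    Derivation ℤ (MvPolynomial σ A) (MvPolynomial σ A) :=
  Derivation.mk' (cAdd (δ : A →+ A)).toIntLinearMap (by
    intro f g
    change cAdd (δ : A →+ A) (f * g) = f • cAdd (δ : A →+ A) g + g • cAdd (δ : A →+ A) f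
    rw [smul_eq_mul, smul_eq_mul]
    induction f using MvPolynomial.induction_on' with
    | add f1 f2 h1 h2 => rw [add_mul, map_add, h1, h2, map_add]; ring
    | monomial a r =>
      induction g using MvPolynomial.induction_on' with
      | add g1 g2 h1 h2 => rw [mul_add, map_add, h1, h2, map_add]; ring
      | monomial b s =>
        rw [monomial_mul, cAdd_monomial, cAdd_monomial, cAdd_monomial, monomial_mul, monomial_mul,
          add_comm b a, ← map_add]
        congr 1
        change δ (r * s) = r * δ s + s * δ r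
        rw [Derivation.leibniz, smul_eq_mul, smul_eq_mul])

theorem cD_monomial (δ : Derivation ℤ A A) (a : σ →₀ ℕ) (r : A) :
    cD δ (monomial a r) = monomial a (δ r) := cAdd_monomial _ _ _

theorem cD_smul (δ : Derivation ℤ A A) (c : A) (g : MvPolynomial σ A) :
    cD δ (c • g) = c • cD δ g + δ c • g := by
  have h : ∀ (c : A) (g : MvPolynomial σ A), c • g = C c * g := fun c g => by
    rw [C_mul']
  rw [h, h, h, Derivation.leibniz, smul_eq_mul, smul_eq_mul]
  have : cD δ (C c : MvPolynomial σ A) = C (δ c) := cD_monomial δ 0 c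
  rw [this]
  ring

end

section
variable {n : ℕ} {A : Type} [CommRing A]

theorem cD_lev (δ : Derivation ℤ A A) (N : ℕ) (g : MvPolynomial (Fin (n + 1)) A) :
    lev N (cD δ g) = cD δ (lev N g) := by
  induction g using MvPolynomial.induction_on' with
  | add g1 g2 h1 h2 => rw [map_add, map_add, h1, h2, map_add, map_add]
  | monomial a s =>
    rw [cD_monomial, lev_monomial, lev_monomial]
    split_ifs
    · rw [cD_monomial]
    · rw [map_zero]

theorem cD_psi (δ : Derivation ℤ A A) (p : ℕ) (g : MvPolynomial (Fin (n + 1)) A) :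
    psi p (cD δ g) = cD δ (psi p g) := by
  classical
  induction g using MvPolynomial.induction_on' with
  | add g1 g2 h1 h2 => rw [map_add, map_add, h1, h2, map_add, map_add]
  | monomial a s =>
    rw [cD_monomial, psi_monomial, psi_monomial]
    split_ifs
    · rw [cD_monomial]
    · rw [map_zero]

theorem cD_ez (δ : Derivation ℤ A A) (i : Fin (n + 1)) (g : MvPolynomial (Fin (n + 1)) A) :
    cD δ (ez i g) = ez i (cD δ g) := by
  induction g using MvPolynomial.induction_on' with
  | add g1 g2 h1 h2 => rw [map_add, map_add, h1, h2, map_add, map_add]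
  | monomial a s =>
    rw [cD_monomial, ez_monomial, ez_monomial, cD_monomial, Derivation.leibniz, smul_eq_mul,
      smul_eq_mul, Derivation.map_natCast, mul_zero, add_zero]

/-- the connection on numerators -/
noncomputable def nab0 (δ : Derivation ℤ A A) (P : MvPolynomial (Fin (n + 1)) A) :
    MvPolynomial (Fin (n + 1)) A →+ MvPolynomial (Fin (n + 1)) A where
  toFun g := cD δ g - cD δ P * g
  map_zero' := by simp
  map_add' g h := by rw [map_add]; ring

theorem nab0_apply (δ : Derivation ℤ A A) (P g : MvPolynomial (Fin (n + 1)) A) :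
    nab0 δ P g = cD δ g - cD δ P * g := rfl

theorem nab0_Dop (δ : Derivation ℤ A A) (P : MvPolynomial (Fin (n + 1)) A) (i : Fin (n + 1))
    (g : MvPolynomial (Fin (n + 1)) A) :
    nab0 δ P (Dop P i g) = Dop P i (nab0 δ P g) := by
  rw [nab0_apply, nab0_apply, Dop_apply, Dop_apply, map_sub, map_add, cD_ez, Derivation.leibniz,
    map_sub (ez i), Derivation.leibniz (ez i), cD_ez]
  simp only [smul_eq_mul]
  ring

theorem nab0_smul (δ : Derivation ℤ A A) (P : MvPolynomial (Fin (n + 1)) A) (c : A)
    (g : MvPolynomial (Fin (n + 1)) A) :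
    nab0 δ P (c • g) = c • nab0 δ P g + δ c • g := by
  rw [nab0_apply, nab0_apply, cD_smul, smul_sub, mul_smul_comm]
  abel

theorem nab0_Rel (δ : Derivation ℤ A A) (P : MvPolynomial (Fin (n + 1)) A)
    (g : MvPolynomial (Fin (n + 1)) A) (hg : g ∈ Rel P) : nab0 δ P g ∈ Rel P := by
  rw [Rel] at hg
  refine Submodule.iSup_induction _ (motive := fun x => nab0 δ P x ∈ Rel P) hg ?_ ?_ ?_
  · rintro i _ ⟨h, rfl⟩
    rw [nab0_Dop]
    exact Submodule.mem_iSup_of_mem i (LinearMap.mem_range_self _ _)
  · rw [map_zero]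
    exact Submodule.zero_mem _
  · intro x y hx hy
    rw [map_add]
    exact Submodule.add_mem _ hx hy

/-- the connection on `V(P)` -/
noncomputable def nab (δ : Derivation ℤ A A) (P : MvPolynomial (Fin (n + 1)) A) :
    VP P →+ VP P :=
  QuotientAddGroup.map (Rel P).toAddSubgroup (Rel P).toAddSubgroup (nab0 δ P)
    (fun g hg => nab0_Rel δ P g hg)

theorem nab_cls (δ : Derivation ℤ A A) (P g : MvPolynomial (Fin (n + 1)) A) :
    nab δ P (cls P g) = cls P (nab0 δ P g) := rfl

theorem nab_smul (δ : Derivation ℤ A A) (P : MvPolynomial (Fin (n + 1)) A) (c : A) (v : VP P) :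
    nab δ P (c • v) = c • nab δ P v + δ c • v := by
  obtain ⟨g, rfl⟩ := (Rel P).mkQ_surjective v
  have h : c • (Rel P).mkQ g = cls P (c • g) := (map_smul _ _ _).symm
  rw [h, nab_cls, nab0_smul, map_add, map_smul, map_smul]
  rfl

namespace FD
variable (F : FD n A)

/-- compatibility of the data with a derivation of the coefficient ring -/
structure Hor (δ : Derivation ℤ A A) : Prop where
  γ : ∀ j, δ (F.γ j) = 0
  ex : ∃ Q : MvPolynomial (Fin (n + 1)) A, Q.IsHomogeneous F.D ∧
    F.P ^ (F.p - 1) * cD δ F.P = expand F.p Q + cD δ F.E ∧ cD δ F.P' = (F.p : A) • Q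

theorem psi0_nab0 (hD : 0 < F.D) (δ : Derivation ℤ A A) (h : F.Hor δ)
    (g : MvPolynomial (Fin (n + 1)) A) :
    F.psi0 (nab0 δ F.P g) = nab δ F.P' (F.psi0 g) := by
  classical
  obtain ⟨Q, hQ, hQ1, hQ2⟩ := h.ex
  have hcP : (cD δ F.P).IsHomogeneous F.D := by
    rw [F.P.as_sum, map_sum]
    refine IsHomogeneous.sum _ _ _ fun m hm => ?_
    rw [cD_monomial]
    exact isHomogeneous_monomial _ (F.hP.degree_eq_sum_deg_support hm ▸ rfl)
  -- the action on `tau`
  have htau : ∀ l h, tau F.p F.D F.P' l (cD δ h) -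
      (F.p : A) • tau F.p F.D F.P' (l + 1) (expand F.p Q * h) =
      nab δ F.P' (tau F.p F.D F.P' l h) := by
    intro l h
    rw [tau_apply, tau_apply, tau_apply]
    have e1 : F.p * (F.D * (l + 1)) = F.p * (F.D * l) + F.p * F.D := by ring
    rw [e1, lev_mul (expand_isHomogeneous hQ F.p), psi_expand_mul F.p F.hp0, cD_lev, cD_psi,
      nab_cls, nab0_apply, hQ2, smul_mul_assoc, map_sub, map_smul]
  have main : ∀ m : ℕ, 1 ≤ m → ∀ g, F.psi0 (nab0 δ F.P (lev (F.D * m) g)) =
      nab δ F.P' (F.psi0 (lev (F.D * m) g)) := by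
    intro m hm g
    set g' := lev (F.D * m) g with hg'
    have h1 : cD δ g' = lev (F.D * m) (cD δ g) := by rw [cD_lev]
    have h2 : cD δ F.P * g' = lev (F.D * (m + 1)) (cD δ F.P * g) := by
      have e1 : F.D * (m + 1) = F.D * m + F.D := by ring
      rw [e1, lev_mul hcP]
    obtain ⟨t1, t2, t3⟩ := F.tm_spec (m + 1) (by omega)
    have t4 : F.tm (m + 1) ≤ m := by
      refine F.tm_le _ _ ?_
      have : 2 * m ≤ F.p * m := Nat.mul_le_mul_right m F.hp
      omega
    set t := F.tm (m + 1) with ht
    obtain ⟨a, ha⟩ : ∃ a, F.p * t = a + 1 + m := ⟨F.p * t - (m + 1), by omega⟩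
    rw [nab0_apply, map_sub, h1, h2, F.psi0_lev hD m hm t t4 (by omega),
      F.psi0_lev hD (m + 1) (by omega) t (by omega) t3, hg', F.psi0_lev hD m hm t t4 (by omega),
      ← hg', ← h1, ← h2]
    unfold psiT
    have e1 : F.p * t - m = a + 1 := by omega
    have e2 : F.p * t - (m + 1) = a := by omega
    rw [e1, e2, K_succ m t t1 t4]
    have key := rho_der (τ := tau F.p F.D F.P') F.γs F.J (F.γJ _ le_rfl)
      (fun l h => tau_succ F.hp0 F.hP' F.hD l h) F.hp0 F.hPE
      (cD δ) (expand F.p Q) hQ1 a m t ha.symm g'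
    have e3 : F.r (a + 1) t (cD δ g') - ((m : ℕ) : A) • F.r a t (cD δ F.P * g') =
        nab δ F.P' (F.r (a + 1) t g') := by
      have e4 : F.r (a + 1) t (cD δ g') - ((m : ℕ) : A) • F.r a t (cD δ F.P * g') =
          ∑ j ∈ range F.J, ((-1) ^ j * F.γ j) •
            (tau F.p F.D F.P' (t + j) (cD δ (g' * F.P ^ (a + 1) * F.E ^ j)) -
            (F.p : A) • tau F.p F.D F.P' (t + j + 1)
              (expand F.p Q * (g' * F.P ^ (a + 1) * F.E ^ j))) := key.symm
      rw [e4]
      unfold r rho
      rw [map_sum]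
      refine Finset.sum_congr rfl fun j _ => ?_
      rw [htau, nab_smul]
      have e5 : δ ((-1) ^ j * F.γ j) = 0 := by
        rw [Derivation.leibniz, h.γ, smul_zero, zero_add, Derivation.leibniz_pow]
        simp
      rw [e5, zero_smul, add_zero]
    have e6 := congrArg (fun x => ((K m t : ℕ) : A) • x) e3
    simp only [smul_sub, smul_smul] at e6
    rw [nab_smul, Derivation.map_natCast, zero_smul, add_zero, ← e6]
    congr 2
    push_cast
    ring
  induction g using MvPolynomial.induction_on' with
  | add g1 g2 h1 h2 => rw [map_add, map_add, h1, h2, map_add, map_add]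
  | monomial a s =>
    by_cases h : F.D ∣ a.degree + (n + 1)
    · obtain ⟨m, hm⟩ := h
      have hm1 : 1 ≤ m := by
        rcases Nat.eq_zero_or_pos m with h0 | h0
        · rw [h0, mul_zero] at hm; omega
        · exact h0
      have := main m hm1 (monomial a s)
      rwa [lev_monomial, if_pos hm] at this
    · rw [nab0_apply, cD_monomial, map_sub, F.psi0_of_not_dvd _ _ h, F.psi0_of_not_dvd _ _ h,
        map_zero, zero_sub, neg_eq_zero]
      rw [(cD δ F.P).as_sum, Finset.sum_mul, map_sum]
      refine Finset.sum_eq_zero fun m hm => ?_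
      rw [monomial_mul]
      refine F.psi0_of_not_dvd _ _ fun h' => h ?_
      have hE : m.degree = F.D := hcP.degree_eq_sum_deg_support hm ▸ rfl
      rw [map_add, hE, add_assoc] at h'
      exact (Nat.dvd_add_right (dvd_refl _)).1 h'

/-- horizontality of `Psi` -/
theorem Psi_nab (hD : 0 < F.D) (δ : Derivation ℤ A A) (h : F.Hor δ) (v : VP F.P) :
    F.Psi hD (nab δ F.P v) = nab δ F.P' (F.Psi hD v) := by
  obtain ⟨g, rfl⟩ := (Rel F.P).mkQ_surjective v
  exact F.psi0_nab0 hD δ h g

end FD

end

end Pool.CUBE
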