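import Mathlib
import Pool.Agent.H98.CUBE.Hor

/-!
The face `z_0 = 0`, the coboundary `iota : V(P|_{z_0 = 0}) → V(P)` and the class `e`.
-/

set_option autoImplicit false

open Finset MvPolynomial

namespace Pool.CUBE

section
variable {n : ℕ} {A : Type} [CommRing A]

/-- restriction to `z_0 = 0` -/
noncomputable def face : MvPolynomial (Fin (n + 2)) A →ₐ[A] MvPolynomial (Fin (n + 1)) A :=
  aeval (Fin.cases 0 X)

/-- polynomials in `z_1, …` as polynomials in `z_0, z_1, …` -/
noncomputable def up : MvPolynomial (Fin (n + 1)) A →ₐ[A] MvPolynomial (Fin (n + 2)) A :=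
  rename Fin.succ

theorem face_X_zero : face (X 0 : MvPolynomial (Fin (n + 2)) A) = 0 := by
  rw [face, aeval_X]; rfl

theorem face_X_succ (i : Fin (n + 1)) :
    face (X i.succ : MvPolynomial (Fin (n + 2)) A) = X i := by
  rw [face, aeval_X]; rfl

theorem face_up (g : MvPolynomial (Fin (n + 1)) A) : face (up g) = g := by
  have : (face.comp up : MvPolynomial (Fin (n + 1)) A →ₐ[A] MvPolynomial (Fin (n + 1)) A) =
      AlgHom.id A _ := by
    ext i
    simp [up, face]
  exact congrArg (fun f : MvPolynomial (Fin (n + 1)) A →ₐ[A] MvPolynomial (Fin (n + 1)) A => f g)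
    this

/-- tail of an exponent -/
noncomputable def tl (a : Fin (n + 2) →₀ ℕ) : Fin (n + 1) →₀ ℕ :=
  Finsupp.equivFunOnFinite.symm fun i => a i.succ

theorem tl_apply (a : Fin (n + 2) →₀ ℕ) (i : Fin (n + 1)) : tl a i = a i.succ := rfl

theorem degree_tl (a : Fin (n + 2) →₀ ℕ) : a.degree = a 0 + (tl a).degree := by
  rw [Finsupp.degree_eq_sum, Finsupp.degree_eq_sum, Fin.sum_univ_succ]
  rfl

theorem face_monomial (a : Fin (n + 2) →₀ ℕ) (r : A) :
    face (monomial a r) = if a 0 = 0 then monomial (tl a) r else 0 := by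
  rw [face, aeval_monomial, Finsupp.prod_fintype _ _ (by simp), Fin.prod_univ_succ]
  by_cases h : a 0 = 0
  · rw [if_pos h, h, monomial_eq, Finsupp.prod_fintype _ _ (by simp)]
    simp [tl_apply, algebraMap_eq]
  · rw [if_neg h]
    have : (Fin.cases 0 X (0 : Fin (n + 2)) : MvPolynomial (Fin (n + 1)) A) ^ a 0 = 0 := by
      change (0 : MvPolynomial (Fin (n + 1)) A) ^ a 0 = 0
      exact zero_pow h
    rw [this]
    ring

theorem up_monomial_tl (a : Fin (n + 2) →₀ ℕ) (h : a 0 = 0) (r : A) :
    up (monomial (tl a) r) = monomial a r := by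
  have e : Finsupp.mapDomain Fin.succ (tl a) = a := by
    ext i
    refine Fin.cases ?_ (fun j => ?_) i
    · rw [h, Finsupp.mapDomain_of_notMem_range]
      rintro ⟨j, hj⟩
      exact Fin.succ_ne_zero j hj
    · rw [Finsupp.mapDomain_apply (Fin.succ_injective _), tl_apply]
  rw [up, rename_monomial, e]

/-- every polynomial is its restriction plus a multiple of `z_0` -/
theorem exists_face (h : MvPolynomial (Fin (n + 2)) A) :
    ∃ q, h = up (face h) + X 0 * q := by
  induction h using MvPolynomial.induction_on' with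
  | add g1 g2 h1 h2 =>
    obtain ⟨q1, e1⟩ := h1
    obtain ⟨q2, e2⟩ := h2
    refine ⟨q1 + q2, ?_⟩
    rw [map_add, map_add]
    linear_combination e1 + e2
  | monomial a s =>
    by_cases h : a 0 = 0
    · refine ⟨0, ?_⟩
      rw [face_monomial, if_pos h, up_monomial_tl a h, mul_zero, add_zero]
    · refine ⟨monomial (a - Finsupp.single 0 1) s, ?_⟩
      have e : Finsupp.single 0 1 + (a - Finsupp.single 0 1) = a := by
        ext k
        by_cases hk : k = 0
        · subst hk
          simp
          omega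
        · simp [Ne.symm hk]
      rw [face_monomial, if_neg h, map_zero, zero_add, X, monomial_mul, one_mul, e]

/-- the operator `∂_0 - (∂_0 P)` -/
noncomputable def d0 (P : MvPolynomial (Fin (n + 2)) A) :
    MvPolynomial (Fin (n + 2)) A →ₗ[A] MvPolynomial (Fin (n + 2)) A :=
  (pderiv (R := A) 0).toLinearMap - LinearMap.mulLeft A (pderiv 0 P)

theorem d0_apply (P h : MvPolynomial (Fin (n + 2)) A) :
    d0 P h = pderiv 0 h - pderiv 0 P * h := rfl

theorem ez_eq (i : Fin (n + 1)) (g : MvPolynomial (Fin (n + 1)) A) :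
    ez i g = X i * pderiv i g := rfl

theorem d0_X (P h : MvPolynomial (Fin (n + 2)) A) : d0 P (X 0 * h) = Dop P 0 h := by
  rw [d0_apply, Dop_apply, Derivation.leibniz, pderiv_X_self, ez_eq, ez_eq]
  simp only [smul_eq_mul]
  ring

theorem pderiv_comm' {σ : Type} (i j : σ) (g : MvPolynomial σ A) :
    pderiv i (pderiv j g) = pderiv j (pderiv i g) := by
  classical
  have h : ⁅(pderiv i : Derivation A (MvPolynomial σ A) (MvPolynomial σ A)),
      (pderiv j : Derivation A (MvPolynomial σ A) (MvPolynomial σ A))⁆ = 0 := by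
    apply MvPolynomial.derivation_ext
    intro k
    rw [Derivation.commutator_apply, pderiv_X, pderiv_X]
    simp only [Pi.single_apply]
    split_ifs <;> simp
  have h2 := congrArg (fun D : Derivation A (MvPolynomial σ A) (MvPolynomial σ A) => D g) h
  simp only [Derivation.commutator_apply, Derivation.coe_zero, Pi.zero_apply] at h2
  exact sub_eq_zero.1 h2

theorem pderiv_ez_succ (i : Fin (n + 1)) (g : MvPolynomial (Fin (n + 2)) A) :
    pderiv (R := A) 0 (ez i.succ g) = ez i.succ (pderiv (R := A) 0 g) := by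
  rw [ez_eq, ez_eq, Derivation.leibniz, pderiv_X_of_ne (Fin.succ_ne_zero i), smul_zero, add_zero,
    smul_eq_mul, pderiv_comm' 0 i.succ]

theorem d0_Dop (P : MvPolynomial (Fin (n + 2)) A) (i : Fin (n + 1))
    (h : MvPolynomial (Fin (n + 2)) A) :
    d0 P (Dop P i.succ h) = Dop P i.succ (d0 P h) := by
  rw [d0_apply, d0_apply, Dop_apply, Dop_apply, map_sub, map_add, pderiv_ez_succ,
    Derivation.leibniz, pderiv_ez_succ, map_sub (ez i.succ), Derivation.leibniz (ez i.succ)]
  simp only [smul_eq_mul]
  ring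

theorem pderiv_up (g : MvPolynomial (Fin (n + 1)) A) : pderiv 0 (up g) = 0 := by
  induction g using MvPolynomial.induction_on with
  | C a => rw [up, rename_C, pderiv_C]
  | add p q hp hq => rw [map_add, map_add, hp, hq, add_zero]
  | mul_X p i hp =>
    rw [map_mul, Derivation.leibniz, hp, up, rename_X, pderiv_X_of_ne (Fin.succ_ne_zero i)]
    simp

/-- the coboundary on numerators -/
noncomputable def iota0 (P : MvPolynomial (Fin (n + 2)) A) :
    MvPolynomial (Fin (n + 1)) A →ₗ[A] MvPolynomial (Fin (n + 2)) A :=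
  (LinearMap.mulLeft A (pderiv 0 P)).comp up.toLinearMap

theorem iota0_apply (P : MvPolynomial (Fin (n + 2)) A) (g : MvPolynomial (Fin (n + 1)) A) :
    iota0 P g = pderiv 0 P * up g := rfl

/-- `∂_0 - (∂_0 P)` is minus the coboundary of the restriction, modulo relations -/
theorem cls_d0 (P h : MvPolynomial (Fin (n + 2)) A) :
    cls P (d0 P h) = - cls P (iota0 P (face h)) := by
  obtain ⟨q, hq⟩ := exists_face h
  have h1 : d0 P h = - iota0 P (face h) + Dop P 0 q := by
    conv_lhs => rw [hq]
    rw [map_add, d0_X, d0_apply, pderiv_up, iota0_apply]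
    ring
  rw [h1, map_add, cls_Dop, add_zero, map_neg]

theorem face_ez_succ (i : Fin (n + 1)) (h : MvPolynomial (Fin (n + 2)) A) :
    face (ez i.succ h) = ez i (face h) := by
  induction h using MvPolynomial.induction_on' with
  | add g1 g2 h1 h2 => simp only [map_add, h1, h2]
  | monomial a s =>
    rw [ez_monomial, face_monomial, face_monomial]
    split_ifs
    · rw [ez_monomial, tl_apply]
    · rw [map_zero]

theorem face_Dop (P : MvPolynomial (Fin (n + 2)) A) (i : Fin (n + 1))
    (h : MvPolynomial (Fin (n + 2)) A) :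
    face (Dop P i.succ h) = Dop (face P) i (face h) := by
  rw [Dop_apply, Dop_apply, map_sub, map_add, map_mul, face_ez_succ, face_ez_succ]

theorem iota0_Rel (P : MvPolynomial (Fin (n + 2)) A) (g : MvPolynomial (Fin (n + 1)) A)
    (hg : g ∈ Rel (face P)) : cls P (iota0 P g) = 0 := by
  rw [Rel] at hg
  refine Submodule.iSup_induction _ (motive := fun x => cls P (iota0 P x) = 0) hg ?_ ?_ ?_
  · rintro i _ ⟨h, rfl⟩
    have h1 : Dop (face P) i h = face (Dop P i.succ (up h)) := by
      rw [face_Dop, face_up]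
    rw [h1, ← neg_eq_zero, ← cls_d0, d0_Dop, cls_Dop]
  · rw [map_zero, map_zero]
  · intro x y hx hy
    rw [map_add, map_add, hx, hy, add_zero]

/-- the coboundary `V(P|_{z_0 = 0}) → V(P)` -/
noncomputable def iota (P : MvPolynomial (Fin (n + 2)) A) : VP (face P) →ₗ[A] VP P :=
  (Rel (face P)).liftQ ((cls P).comp (iota0 P)) (fun g hg => iota0_Rel P g hg)

theorem iota_cls (P : MvPolynomial (Fin (n + 2)) A) (g : MvPolynomial (Fin (n + 1)) A) :
    iota P (cls (face P) g) = cls P (iota0 P g) := rfl

end

end Pool.CUBE
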