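import Mathlib
import Pool.Agent.H98.CUBE.Face

/-!
The Cartier operator and the face `z_0 = 0`.
-/

set_option autoImplicit false

open Finset MvPolynomial

namespace Pool.CUBE

section
variable {n : ℕ} {A : Type} [CommRing A]

/-! ### the Cartier operator on numerators without condition at `z_0` -/

/-- exponents for `psiE` -/
noncomputable def dshE (p : ℕ) (a : Fin (n + 2) →₀ ℕ) : Fin (n + 2) →₀ ℕ :=
  Finsupp.equivFunOnFinite.symm (Fin.cases (a 0 / p) fun i => (a i.succ + 1) / p - 1)

/-- `z_0^{a_0} z^a ↦ z_0^{a_0 / p} z^{(a + 1) / p - 1}` -/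
noncomputable def psiE (p : ℕ) : MvPolynomial (Fin (n + 2)) A →ₗ[A] MvPolynomial (Fin (n + 2)) A :=
  linMon fun a => open Classical in
    if p ∣ a 0 ∧ ∀ i : Fin (n + 1), p ∣ a i.succ + 1 then monomial (dshE p a) 1 else 0

theorem psiE_monomial (p : ℕ) (a : Fin (n + 2) →₀ ℕ) (r : A) :
    psiE p (monomial a r) = open Classical in
      if p ∣ a 0 ∧ ∀ i : Fin (n + 1), p ∣ a i.succ + 1 then monomial (dshE p a) r else 0 := by
  rw [psiE, linMon_monomial]
  split_ifs
  · rw [smul_monomial, smul_eq_mul, mul_one]
  · rw [smul_zero]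

/-- weights without condition at `z_0` -/
noncomputable def levE (N : ℕ) :
    MvPolynomial (Fin (n + 2)) A →ₗ[A] MvPolynomial (Fin (n + 2)) A :=
  linMon fun a => if a.degree + (n + 1) = N then monomial a 1 else 0

theorem levE_monomial (N : ℕ) (a : Fin (n + 2) →₀ ℕ) (r : A) :
    levE N (monomial a r) = if a.degree + (n + 1) = N then monomial a r else 0 := by
  rw [levE, linMon_monomial]
  split_ifs
  · rw [smul_monomial, smul_eq_mul, mul_one]
  · rw [smul_zero]

theorem face_levE (N : ℕ) (h : MvPolynomial (Fin (n + 2)) A) :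
    face (levE N h) = lev N (face h) := by
  induction h using MvPolynomial.induction_on' with
  | add g1 g2 h1 h2 => simp only [map_add, h1, h2]
  | monomial a s =>
    rw [levE_monomial, face_monomial]
    by_cases h0 : a 0 = 0
    · rw [if_pos h0, lev_monomial]
      have e : a.degree = (tl a).degree := by rw [degree_tl, h0, zero_add]
      by_cases h1 : a.degree + (n + 1) = N
      · rw [if_pos h1, if_pos (by rw [← e]; exact h1), face_monomial, if_pos h0]
      · rw [if_neg h1, if_neg (by rw [← e]; exact h1), map_zero]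
    · rw [if_neg h0, map_zero]
      split_ifs
      · rw [face_monomial, if_neg h0]
      · rw [map_zero]

theorem face_psiE (p : ℕ) (h : MvPolynomial (Fin (n + 2)) A) :
    face (psiE p h) = psi p (face h) := by
  classical
  induction h using MvPolynomial.induction_on' with
  | add g1 g2 h1 h2 => simp only [map_add, h1, h2]
  | monomial a s =>
    rw [psiE_monomial, face_monomial]
    by_cases h0 : a 0 = 0
    · rw [if_pos h0, psi_monomial]
      by_cases h1 : ∀ i : Fin (n + 1), p ∣ a i.succ + 1
      · have e0 : dshE p a 0 = 0 := by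
          change a 0 / p = 0
          rw [h0, Nat.zero_div]
        have e1 : tl (dshE p a) = dsh p (tl a) := by
          ext i
          rfl
        have h1' : ∀ i : Fin (n + 1), p ∣ (tl a) i + 1 := h1
        have h2 : p ∣ a 0 ∧ ∀ i : Fin (n + 1), p ∣ a i.succ + 1 := ⟨h0 ▸ dvd_zero p, h1⟩
        rw [if_pos h2, if_pos h1', face_monomial, if_pos e0, e1]
      · have h1' : ¬ ∀ i : Fin (n + 1), p ∣ (tl a) i + 1 := h1
        have h2 : ¬ (p ∣ a 0 ∧ ∀ i : Fin (n + 1), p ∣ a i.succ + 1) := fun h => h1 h.2
        rw [if_neg h2, if_neg h1', map_zero]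
    · rw [if_neg h0, (psi p).map_zero]
      by_cases h1 : p ∣ a 0 ∧ ∀ i : Fin (n + 1), p ∣ a i.succ + 1
      · rw [if_pos h1, face_monomial, if_neg]
        change ¬ (a 0 / p = 0)
        intro h2
        have := Nat.mul_div_cancel' h1.1
        rw [h2, mul_zero] at this
        exact h0 this.symm
      · rw [if_neg h1, map_zero]

theorem psi_pderiv (p : ℕ) (h : MvPolynomial (Fin (n + 2)) A) :
    psi p (pderiv 0 h) = (p : A) • pderiv 0 (psiE p h) := by
  classical
  induction h using MvPolynomial.induction_on' with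
  | add g1 g2 h1 h2 => simp only [map_add, h1, h2, smul_add]
  | monomial a s =>
    rw [pderiv_monomial, psiE_monomial]
    by_cases h0 : a 0 = 0
    · rw [h0]
      simp only [Nat.cast_zero, mul_zero, map_zero]
      split_ifs
      · rw [pderiv_monomial]
        have : dshE p a 0 = 0 := by
          change a 0 / p = 0
          rw [h0, Nat.zero_div]
        rw [this]
        simp
      · simp
    · rw [psi_monomial]
      have key : (∀ i : Fin (n + 2), p ∣ (a - Finsupp.single 0 1 : Fin (n + 2) →₀ ℕ) i + 1) ↔
          (p ∣ a 0 ∧ ∀ i : Fin (n + 1), p ∣ a i.succ + 1) := by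
        constructor
        · intro h
          refine ⟨?_, fun i => ?_⟩
          · have := h 0
            rw [Finsupp.tsub_apply, Finsupp.single_eq_same] at this
            have e : a 0 - 1 + 1 = a 0 := by omega
            rwa [e] at this
          · have := h i.succ
            rwa [Finsupp.tsub_apply, Finsupp.single_eq_of_ne (Fin.succ_ne_zero i).symm.symm,
              tsub_zero] at this
        · rintro ⟨h1, h2⟩ i
          refine Fin.cases ?_ (fun j => ?_) i
          · rw [Finsupp.tsub_apply, Finsupp.single_eq_same]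
            have e : a 0 - 1 + 1 = a 0 := by omega
            rwa [e]
          · rw [Finsupp.tsub_apply, Finsupp.single_eq_of_ne (Fin.succ_ne_zero j).symm.symm,
              tsub_zero]
            exact h2 j
      by_cases h1 : p ∣ a 0 ∧ ∀ i : Fin (n + 1), p ∣ a i.succ + 1
      · rw [if_pos h1, if_pos (key.2 h1), pderiv_monomial, smul_monomial, smul_eq_mul]
        have e0 : dshE p a 0 = a 0 / p := rfl
        have e1 : dsh p (a - Finsupp.single 0 1) = dshE p a - Finsupp.single 0 1 := by
          ext i
          refine Fin.cases ?_ (fun j => ?_) i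
          · rw [dsh_apply, Finsupp.tsub_apply, Finsupp.tsub_apply, Finsupp.single_eq_same, e0]
            have e : a 0 - 1 + 1 = a 0 := by omega
            rw [e]
          · rw [dsh_apply, Finsupp.tsub_apply, Finsupp.tsub_apply,
              Finsupp.single_eq_of_ne (Fin.succ_ne_zero j).symm.symm, tsub_zero, tsub_zero]
            rfl
        have e2 : (p : A) * ((a 0 / p : ℕ) : A) = (a 0 : A) := by
          rw [← Nat.cast_mul, Nat.mul_div_cancel' h1.1]
        rw [e1, e0, ← e2]
        congr 1
        ring
      · rw [if_neg h1, if_neg (fun h => h1 (key.1 h)), map_zero, smul_zero]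

theorem psi_X_pow (p : ℕ) (hp : 0 < p) (h : MvPolynomial (Fin (n + 2)) A) :
    psi p (X 0 ^ (p - 1) * h) = psiE p h := by
  classical
  induction h using MvPolynomial.induction_on' with
  | add g1 g2 h1 h2 => rw [mul_add, map_add, map_add, h1, h2]
  | monomial a s =>
    rw [X_pow_eq_monomial, monomial_mul, one_mul, psi_monomial, psiE_monomial]
    have e0 : (Finsupp.single 0 (p - 1) + a : Fin (n + 2) →₀ ℕ) 0 + 1 = a 0 + p := by
      rw [Finsupp.add_apply, Finsupp.single_eq_same]; omega
    have ei : ∀ i : Fin (n + 1), (Finsupp.single 0 (p - 1) + a : Fin (n + 2) →₀ ℕ) i.succ + 1 = a i.succ + 1 := by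
      intro i
      rw [Finsupp.add_apply, Finsupp.single_eq_of_ne (Fin.succ_ne_zero i).symm.symm, zero_add]
    have key : (∀ i : Fin (n + 2), p ∣ (Finsupp.single 0 (p - 1) + a : Fin (n + 2) →₀ ℕ) i + 1) ↔
          (p ∣ a 0 ∧ ∀ i : Fin (n + 1), p ∣ a i.succ + 1) := by
      constructor
      · intro h
        refine ⟨?_, fun i => ?_⟩
        · have := h 0
          rw [e0] at this
          exact (Nat.dvd_add_left (dvd_refl p)).1 this
        · have := h i.succ
          rwa [ei] at this
      · rintro ⟨h1, h2⟩ i
        refine Fin.cases ?_ (fun j => ?_) i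
        · rw [e0]
          exact dvd_add h1 (dvd_refl p)
        · rw [ei]
          exact h2 j
    by_cases h1 : p ∣ a 0 ∧ ∀ i : Fin (n + 1), p ∣ a i.succ + 1
    · rw [if_pos h1, if_pos (key.2 h1)]
      have e1 : dsh p (Finsupp.single 0 (p - 1) + a) = dshE p a := by
        ext i
        refine Fin.cases ?_ (fun j => ?_) i
        · rw [dsh_apply, e0, Nat.add_div_right _ hp]
          rfl
        · rw [dsh_apply, ei]
          rfl
      rw [e1]
    · rw [if_neg h1, if_neg (fun h => h1 (key.1 h))]

/-- weights and `∂_0` -/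
theorem lev_pderiv (N : ℕ) (h : MvPolynomial (Fin (n + 2)) A) :
    lev N (pderiv 0 h) = pderiv 0 (levE N h) := by
  classical
  induction h using MvPolynomial.induction_on' with
  | add g1 g2 h1 h2 => simp only [map_add, h1, h2]
  | monomial a s =>
    rw [pderiv_monomial, levE_monomial]
    by_cases h0 : a 0 = 0
    · rw [h0, Nat.cast_zero, mul_zero, map_zero, map_zero]
      split_ifs
      · rw [pderiv_monomial, h0, Nat.cast_zero, mul_zero, map_zero]
      · rw [map_zero]
    · rw [lev_monomial]
      have e1 : (a - Finsupp.single 0 1 : Fin (n + 2) →₀ ℕ) + Finsupp.single 0 1 = a := by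
        ext k
        by_cases hk : k = 0
        · subst hk
          simp
          omega
        · simp [Ne.symm hk]
      have e2 : (a - Finsupp.single 0 1 : Fin (n + 2) →₀ ℕ).degree + 1 = a.degree := by
        conv_rhs => rw [← e1]
        rw [map_add, Finsupp.degree_single]
      by_cases h1 : a.degree + (n + 1) = N
      · rw [if_pos h1, if_pos (by omega), pderiv_monomial]
      · rw [if_neg h1, if_neg (by omega), map_zero]

theorem lev_mul_levE {Q : MvPolynomial (Fin (n + 2)) A} {d : ℕ} (hQ : Q.IsHomogeneous d) (N : ℕ)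
    (h : MvPolynomial (Fin (n + 2)) A) : lev (N + (d + 1)) (Q * h) = Q * levE N h := by
  classical
  have key : ∀ m : Fin (n + 2) →₀ ℕ, m.degree = d → ∀ r : A, ∀ g : MvPolynomial (Fin (n + 2)) A,
      lev (N + (d + 1)) (monomial m r * g) = monomial m r * levE N g := by
    intro m hm r g
    induction g using MvPolynomial.induction_on' with
    | add g1 g2 h1 h2 => rw [mul_add, map_add, map_add, h1, h2, mul_add]
    | monomial a s =>
      rw [monomial_mul, lev_monomial, levE_monomial]
      have e1 : (m + a).degree = d + a.degree := by rw [map_add, hm]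
      by_cases h : a.degree + (n + 1) = N
      · rw [if_pos h, if_pos (by omega), monomial_mul]
      · rw [if_neg h, if_neg (by omega), mul_zero]
  conv_lhs => rw [Q.as_sum, Finset.sum_mul, map_sum]
  conv_rhs => rw [Q.as_sum, Finset.sum_mul]
  refine Finset.sum_congr rfl fun m hm => key m ?_ _ _
  exact hQ.degree_eq_sum_deg_support hm ▸ rfl

theorem psi_X_pow_expand (p : ℕ) (hp : 0 < p) (Q h : MvPolynomial (Fin (n + 2)) A) :
    psi p (X 0 ^ (p - 1) * expand p Q * h) = Q * psiE p h := by
  have e : X 0 ^ (p - 1) * expand p Q * h = expand p Q * (X 0 ^ (p - 1) * h) := by ring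
  rw [e, psi_expand_mul p hp, psi_X_pow p hp]

/-- the maps `τ_l` and the face -/
theorem tau_face {p D : ℕ} (hp : 0 < p) (hD : 0 < D) {P' : MvPolynomial (Fin (n + 2)) A}
    (hP' : P'.IsHomogeneous D) (l : ℕ) (h : MvPolynomial (Fin (n + 2)) A) :
    tau p D P' l (pderiv 0 h) -
      (p : A) • tau p D P' (l + 1) (X 0 ^ (p - 1) * expand p (pderiv 0 P') * h) =
      - ((p : A) • iota P' (tau p D (face P') l (face h))) := by
  rw [tau_apply, tau_apply, tau_apply]
  have hQ : (X 0 ^ (p - 1) * expand p (pderiv 0 P') :
      MvPolynomial (Fin (n + 2)) A).IsHomogeneous (p * D - 1) := by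
    have h1 : (X 0 ^ (p - 1) : MvPolynomial (Fin (n + 2)) A).IsHomogeneous (p - 1) :=
      isHomogeneous_X_pow _ _
    have h2 : (expand p (pderiv 0 P')).IsHomogeneous (p * (D - 1)) :=
      expand_isHomogeneous hP'.pderiv p
    have h3 := h1.mul h2
    have e : p - 1 + p * (D - 1) = p * D - 1 := by
      obtain ⟨q, rfl⟩ : ∃ q, p = q + 1 := ⟨p - 1, by omega⟩
      obtain ⟨d, rfl⟩ : ∃ d, D = d + 1 := ⟨D - 1, by omega⟩
      simp only [Nat.add_sub_cancel]
      have : (q + 1) * (d + 1) = (q + (q + 1) * d) + 1 := by ring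
      rw [this, Nat.add_sub_cancel]
    rwa [e] at h3
  have e1 : p * (D * (l + 1)) = p * (D * l) + ((p * D - 1) + 1) := by
    have : 0 < p * D := Nat.mul_pos hp hD
    rw [Nat.sub_add_cancel this]
    ring
  rw [lev_pderiv, psi_pderiv, e1, lev_mul_levE hQ, psi_X_pow_expand p hp, map_smul, ← smul_sub,
    ← map_sub, ← d0_apply, cls_d0, smul_neg, ← iota_cls, face_psiE, face_levE]

theorem face_isHomogeneous {P : MvPolynomial (Fin (n + 2)) A} {D : ℕ} (hP : P.IsHomogeneous D) :
    (face P).IsHomogeneous D := by
  classical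
  rw [P.as_sum, map_sum]
  refine IsHomogeneous.sum _ _ _ fun m hm => ?_
  rw [face_monomial]
  split_ifs with h
  · refine isHomogeneous_monomial _ ?_
    have h1 : m.degree = D := hP.degree_eq_sum_deg_support hm ▸ rfl
    rw [← h1, degree_tl, h, zero_add]
  · exact isHomogeneous_zero _ _ _

theorem face_expand (p : ℕ) (hp : 0 < p) (g : MvPolynomial (Fin (n + 2)) A) :
    face (expand p g) = expand p (face g) := by
  induction g using MvPolynomial.induction_on with
  | C a => rw [expand_C]; simp [face, algebraMap_eq]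
  | add g h hg hh => rw [map_add, map_add, hg, hh, map_add, map_add]
  | mul_X g i hg =>
    rw [map_mul, map_mul, hg, map_mul, map_mul, expand_X, map_pow]
    congr 1
    refine Fin.cases ?_ (fun j => ?_) i
    · rw [face_X_zero, map_zero, zero_pow hp.ne']
    · rw [face_X_succ, expand_X]

theorem face_pderiv_succ (i : Fin (n + 1)) (h : MvPolynomial (Fin (n + 2)) A) :
    face (pderiv i.succ h) = pderiv i (face h) := by
  classical
  induction h using MvPolynomial.induction_on' with
  | add g1 g2 h1 h2 => simp only [map_add, h1, h2]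
  | monomial a s =>
    rw [pderiv_monomial, face_monomial, face_monomial]
    have e0 : (a - Finsupp.single i.succ 1 : Fin (n + 2) →₀ ℕ) 0 = a 0 := by
      rw [Finsupp.tsub_apply, Finsupp.single_eq_of_ne (Fin.succ_ne_zero i).symm, Nat.sub_zero]
    have e1 : tl (a - Finsupp.single i.succ 1 : Fin (n + 2) →₀ ℕ) =
        tl a - Finsupp.single i 1 := by
      ext j
      rw [tl_apply, Finsupp.tsub_apply, Finsupp.tsub_apply, tl_apply]
      by_cases hj : j = i
      · subst hj
        simp
      · have hj' : j.succ ≠ i.succ := fun h => hj (Fin.succ_injective _ h)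
        rw [Finsupp.single_eq_of_ne hj', Finsupp.single_eq_of_ne hj]
    rw [e0]
    split_ifs
    · rw [e1, pderiv_monomial, tl_apply]
    · rw [map_zero]

namespace FD

/-- the face of Frobenius data -/
noncomputable abbrev face (F : FD (n + 1) A) : FD n A where
  p := F.p
  D := F.D
  J := F.J
  P := CUBE.face F.P
  P' := CUBE.face F.P'
  E := CUBE.face F.E
  γ := F.γ
  hp := F.hp
  hD := F.hD
  hP := face_isHomogeneous F.hP
  hP' := face_isHomogeneous F.hP'
  hPE := by
    rw [← map_pow, F.hPE, map_add, face_expand F.p F.hp0, map_mul, map_natCast]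
  hPd i := by
    have h := congrArg CUBE.face (F.hPd i.succ)
    rw [map_mul, map_pow, face_pderiv_succ, map_add, map_mul, map_pow, face_X_succ,
      face_expand F.p F.hp0, face_pderiv_succ, face_pderiv_succ] at h
    exact h
  γ0 := F.γ0
  γs := F.γs
  γJ := F.γJ
  γmul := F.γmul

variable (F : FD (n + 1) A)

theorem psi0_iota0 (hD : 0 < F.D) (g : MvPolynomial (Fin (n + 1)) A) :
    F.psi0 (iota0 F.P g) = (F.p : A) • iota F.P' (F.face.psi0 g) := by
  classical
  have main : ∀ m : ℕ, 1 ≤ m → ∀ g, F.psi0 (iota0 F.P (lev (F.D * m) g)) =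
      (F.p : A) • iota F.P' (F.face.psi0 (lev (F.D * m) g)) := by
    intro m hm g
    set g' := lev (F.D * m) g with hg'
    have hd : (pderiv 0 F.P).IsHomogeneous (F.D - 1) := F.hP.pderiv
    -- the weight of the coboundary
    have h2 : iota0 F.P g' = lev (F.D * (m + 1)) (iota0 F.P g') := by
      have e1 : F.D * (m + 1) = F.D * m + ((F.D - 1) + 1) := by
        rw [Nat.sub_add_cancel hD]; ring
      have e2 : ∀ g : MvPolynomial (Fin (n + 1)) A, levE (F.D * m) (up (lev (F.D * m) g)) =
          up (lev (F.D * m) g) := by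
        intro g
        induction g using MvPolynomial.induction_on' with
        | add g1 g2 h1 h2 => simp only [map_add, h1, h2]
        | monomial a s =>
          rw [lev_monomial]
          split_ifs with h
          · have e3 : (Finsupp.mapDomain Fin.succ a : Fin (n + 2) →₀ ℕ).degree = a.degree := by
              rw [Finsupp.degree_mapDomain]
            rw [up, rename_monomial, levE_monomial, if_pos (by rw [e3]; exact h)]
          · simp only [map_zero]
      rw [iota0_apply, e1, lev_mul_levE hd, hg', e2]
    obtain ⟨t1, t2, t3⟩ := F.tm_spec (m + 1) (by omega)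
    have t4 : F.tm (m + 1) ≤ m := by
      refine F.tm_le _ _ ?_
      have : 2 * m ≤ F.p * m := Nat.mul_le_mul_right m F.hp
      omega
    set t := F.tm (m + 1) with ht
    obtain ⟨a, ha⟩ : ∃ a, F.p * t = a + 1 + m := ⟨F.p * t - (m + 1), by omega⟩
    have hf : F.face.psi0 (lev (F.face.D * m) g) = F.face.psiT m t (lev (F.face.D * m) g) :=
      F.face.psi0_lev hD m hm t t4 (by change m ≤ F.p * t; omega) g
    have hf' : F.face.psi0 g' = F.face.psiT m t g' := hf
    rw [h2, F.psi0_lev hD (m + 1) (by omega) t (by omega) t3, ← h2, hf']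
    unfold psiT
    have e1 : F.face.p * t - m = a + 1 := by change F.p * t - m = a + 1; omega
    have e2 : F.p * t - (m + 1) = a := by omega
    rw [e1, e2, K_succ m t t1 t4]
    have key := rho_der (τ := tau F.p F.D F.P') F.γs F.J (F.γJ _ le_rfl)
      (fun l h => tau_succ F.hp0 F.hP' F.hD l h) F.hp0 F.hPE
      ((pderiv (R := A) (0 : Fin (n + 2))).restrictScalars ℤ)
      (X 0 ^ (F.p - 1) * expand F.p (pderiv 0 F.P')) (F.hPd 0) a m t ha.symm (up g')
    have e3 : (m : A) • F.r a t (pderiv 0 F.P * up g') =
        (F.p : A) • iota F.P' (F.face.r (a + 1) t g') := by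
      have e4 : F.r (a + 1) t (pderiv 0 (up g')) - ((m : ℕ) : A) •
          F.r a t (pderiv 0 F.P * up g') =
          ∑ j ∈ range F.J, ((-1) ^ j * F.γ j) •
            (tau F.p F.D F.P' (t + j) (pderiv 0 (up g' * F.P ^ (a + 1) * F.E ^ j)) -
            (F.p : A) • tau F.p F.D F.P' (t + j + 1)
              (X 0 ^ (F.p - 1) * expand F.p (pderiv 0 F.P') *
                (up g' * F.P ^ (a + 1) * F.E ^ j))) := key.symm
      have e5 : F.r (a + 1) t (pderiv 0 (up g')) = 0 := by
        rw [pderiv_up]
        have := F.r_smul (a + 1) t 0 0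
        rwa [zero_smul, zero_smul] at this
      have e6 : ∑ j ∈ range F.J, ((-1) ^ j * F.γ j) •
            (tau F.p F.D F.P' (t + j) (pderiv 0 (up g' * F.P ^ (a + 1) * F.E ^ j)) -
            (F.p : A) • tau F.p F.D F.P' (t + j + 1)
              (X 0 ^ (F.p - 1) * expand F.p (pderiv 0 F.P') *
                (up g' * F.P ^ (a + 1) * F.E ^ j))) =
          - ((F.p : A) • iota F.P' (F.face.r (a + 1) t g')) := by
        unfold r rho
        rw [map_sum, Finset.smul_sum, ← Finset.sum_neg_distrib]
        refine Finset.sum_congr rfl fun j _ => ?_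
        have ef : CUBE.face (up g' * F.P ^ (a + 1) * F.E ^ j) =
            g' * CUBE.face F.P ^ (a + 1) * CUBE.face F.E ^ j := by
          rw [map_mul, map_mul, map_pow, map_pow, face_up]
        rw [tau_face F.hp0 hD F.hP', ef, (iota F.P').map_smul, smul_neg, smul_comm]
      rw [e5, e6, zero_sub, neg_inj] at e4
      exact e4
    rw [map_smul, smul_comm, ← e3, smul_smul, ← iota0_apply]
    congr 1
    push_cast
    ring
  induction g using MvPolynomial.induction_on' with
  | add g1 g2 h1 h2 =>
    rw [map_add, map_add, h1, h2, map_add, ← smul_add, ← (iota F.P').map_add]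
  | monomial a s =>
    by_cases h : F.D ∣ a.degree + (n + 1)
    · obtain ⟨m, hm⟩ := h
      have hm1 : 1 ≤ m := by
        rcases Nat.eq_zero_or_pos m with h0 | h0
        · rw [h0, mul_zero] at hm; omega
        · exact h0
      have := main m hm1 (monomial a s)
      rwa [lev_monomial, if_pos hm] at this
    · have h' : ¬ F.face.D ∣ a.degree + (n + 1) := h
      rw [F.face.psi0_of_not_dvd _ _ h', map_zero, smul_zero, iota0_apply, up, rename_monomial]
      have hd : (pderiv 0 F.P).IsHomogeneous (F.D - 1) := F.hP.pderiv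
      rw [(pderiv 0 F.P).as_sum, Finset.sum_mul, map_sum]
      refine Finset.sum_eq_zero fun m hm => ?_
      rw [monomial_mul]
      refine F.psi0_of_not_dvd _ _ fun h' => h ?_
      have e1 : m.degree = F.D - 1 := hd.degree_eq_sum_deg_support hm ▸ rfl
      have e3 : (Finsupp.mapDomain Fin.succ a : Fin (n + 2) →₀ ℕ).degree = a.degree := by
        rw [Finsupp.degree_mapDomain]
      rw [map_add, e1, e3] at h'
      have e4 : F.D - 1 + a.degree + (n + 1 + 1) = F.D + (a.degree + (n + 1)) := by omega
      rw [e4] at h'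
      exact (Nat.dvd_add_right (dvd_refl _)).1 h'

/-- the coboundary and the Cartier operator -/
theorem Psi_iota (hD : 0 < F.D) (v : VP (CUBE.face F.P)) :
    F.Psi hD (iota F.P v) = (F.p : A) • iota F.P' (F.face.Psi hD v) := by
  obtain ⟨g, rfl⟩ := (Rel (CUBE.face F.P)).mkQ_surjective v
  exact F.psi0_iota0 hD g

end FD

end

end Pool.CUBE
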