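import Mathlib
import Pool.Agent.H98.CUBE.FacePsi

/-!
The horizontal class `eCl` and its compatibility with the Cartier operator and the connection.
-/

set_option autoImplicit false

open Finset MvPolynomial

namespace Pool.CUBE

section
variable {n : ℕ} {A : Type} [CommRing A]

theorem cD_pderiv {σ : Type} (δ : Derivation ℤ A A) (i : σ) (g : MvPolynomial σ A) :
    cD δ (pderiv i g) = pderiv i (cD δ g) := by
  classical
  induction g using MvPolynomial.induction_on' with
  | add g1 g2 h1 h2 => simp only [map_add, h1, h2]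
  | monomial a s =>
    rw [cD_monomial, pderiv_monomial, pderiv_monomial, cD_monomial, Derivation.leibniz,
      smul_eq_mul, smul_eq_mul, Derivation.map_natCast, mul_zero, zero_add, mul_comm]

theorem cD_face (δ : Derivation ℤ A A) (g : MvPolynomial (Fin (n + 2)) A) :
    cD δ (face g) = face (cD δ g) := by
  induction g using MvPolynomial.induction_on' with
  | add g1 g2 h1 h2 => simp only [map_add, h1, h2]
  | monomial a s =>
    rw [cD_monomial, face_monomial, face_monomial]
    split_ifs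
    · rw [cD_monomial]
    · rw [map_zero]

theorem nab0_d0 (δ : Derivation ℤ A A) (P h : MvPolynomial (Fin (n + 2)) A) :
    nab0 δ P (d0 P h) = d0 P (nab0 δ P h) := by
  rw [nab0_apply, nab0_apply, d0_apply, d0_apply, map_sub, cD_pderiv, Derivation.leibniz,
    (pderiv (R := A) (0 : Fin (n + 2))).map_sub,
    (pderiv (R := A) (0 : Fin (n + 2))).leibniz, cD_pderiv]
  simp only [smul_eq_mul]
  ring

theorem nab_iota (δ : Derivation ℤ A A) (P : MvPolynomial (Fin (n + 2)) A) (v : VP (face P)) :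
    nab δ P (iota P v) = iota P (nab δ (face P) v) := by
  obtain ⟨g, rfl⟩ := (Rel (face P)).mkQ_surjective v
  change cls P (nab0 δ P (iota0 P g)) = cls P (iota0 P (nab0 δ (face P) g))
  have h1 : iota0 P g = - d0 P (up g) := by
    rw [d0_apply, pderiv_up, iota0_apply]; ring
  have h2 : nab0 δ (face P) g = face (nab0 δ P (up g)) := by
    rw [nab0_apply, nab0_apply, map_sub, map_mul, ← cD_face, ← cD_face, face_up]
  rw [h1, map_neg, nab0_d0, map_neg, cls_d0, neg_neg, h2]

theorem expand_mon {σ : Type} [Fintype σ] (p : ℕ) (m : σ →₀ ℕ) (r : A) :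
    expand p (monomial m r : MvPolynomial σ A) = monomial (p • m) r := by
  rw [expand_monomial, monomial_eq, Finsupp.prod_fintype _ _ (by simp)]

/-- representative of the class `e_P` -/
noncomputable def eP0 (D : ℕ) : (n : ℕ) → MvPolynomial (Fin (n + 1)) A → MvPolynomial (Fin (n + 1)) A
  | 0, P => monomial (Finsupp.single 0 (D - 1)) (coeff (Finsupp.single 0 D) P)
  | n + 1, P => iota0 P (eP0 D n (face P))

theorem eP0_zero (D : ℕ) (P : MvPolynomial (Fin (0 + 1)) A) :
    eP0 D 0 P = monomial (Finsupp.single 0 (D - 1)) (coeff (Finsupp.single 0 D) P) := rfl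

theorem eP0_succ (D n : ℕ) (P : MvPolynomial (Fin (n + 2)) A) :
    eP0 D (n + 1) P = iota0 P (eP0 D n (face P)) := rfl

/-- the class `e_P` -/
noncomputable def eCl (D : ℕ) (P : MvPolynomial (Fin (n + 1)) A) : VP P := cls P (eP0 D n P)

theorem eCl_succ (D : ℕ) (P : MvPolynomial (Fin (n + 2)) A) : eCl D P = iota P (eCl D (face P)) :=
  rfl

theorem homog_one {P : MvPolynomial (Fin (0 + 1)) A} {D : ℕ} (hP : P.IsHomogeneous D) :
    P = monomial (Finsupp.single 0 D) (coeff (Finsupp.single 0 D) P) := by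
  classical
  ext m
  rw [coeff_monomial]
  split_ifs with h
  · rw [h]
  · by_contra hne
    have h1 : m.degree = D := hP.degree_eq_sum_deg_support (mem_support_iff.2 hne) ▸ rfl
    apply h
    ext i
    have hi : i = (0 : Fin (0 + 1)) := Fin.eq_of_val_eq (by omega)
    subst hi
    rw [Finsupp.single_eq_same, ← h1, Finsupp.degree_eq_sum]
    simp

/-- the basis of `V(P)` in one variable -/
noncomputable def v1 (D : ℕ) (P : MvPolynomial (Fin (0 + 1)) A) (k : ℕ) : VP P :=
  cls P (monomial (Finsupp.single 0 (D * k - 1)) 1)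

/-- the relation in one variable -/
theorem v1_succ {P : MvPolynomial (Fin (0 + 1)) A} {D : ℕ} (hP : P.IsHomogeneous D)
    (hD : IsUnit (D : A)) (hD0 : 0 < D) (k : ℕ) (hk : 1 ≤ k) :
    (coeff (Finsupp.single 0 D) P) • v1 D P (k + 1) = (k : A) • v1 D P k := by
  classical
  have h1 : lev (D * k) (monomial (Finsupp.single 0 (D * k - 1)) 1 :
      MvPolynomial (Fin (0 + 1)) A) = monomial (Finsupp.single 0 (D * k - 1)) 1 := by
    rw [lev_monomial, if_pos]
    rw [Finsupp.degree_single]
    have : 0 < D * k := Nat.mul_pos hD0 hk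
    omega
  have h2 := cls_P_mul hP hD k (monomial (Finsupp.single 0 (D * k - 1)) 1)
  rw [h1] at h2
  have e : D + (D * k - 1) = D * (k + 1) - 1 := by
    have : 0 < D * k := Nat.mul_pos hD0 hk
    rw [mul_add, mul_one]
    omega
  have h3 : P * monomial (Finsupp.single 0 (D * k - 1)) 1 =
      coeff (Finsupp.single 0 D) P • monomial (Finsupp.single 0 (D * (k + 1) - 1)) 1 := by
    refine (congrArg (fun q => q * monomial (Finsupp.single 0 (D * k - 1)) 1)
      (homog_one hP)).trans ?_
    rw [monomial_mul, mul_one, ← Finsupp.single_add, e, smul_monomial, smul_eq_mul, mul_one]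
  unfold v1
  rw [← h2, h3, map_smul]

/-- horizontality of `e_P` -/
theorem nab_eCl (δ : Derivation ℤ A A) (D : ℕ) (hD : IsUnit (D : A)) (hD0 : 0 < D) :
    ∀ (n : ℕ) (P : MvPolynomial (Fin (n + 1)) A), P.IsHomogeneous D → nab δ P (eCl D P) = 0
  | 0, P, hP => by
    change cls P (nab0 δ P (eP0 D 0 P)) = 0
    rw [nab0_apply, eP0_zero, cD_monomial]
    set c := coeff (Finsupp.single 0 D) P with hc
    have h1 : cD δ P = monomial (Finsupp.single 0 D) (δ c) :=
      (congrArg (cD δ) (homog_one hP)).trans (cD_monomial _ _ _)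
    have h2 : cD δ P * monomial (Finsupp.single 0 (D - 1)) c =
        (δ c * c) • monomial (Finsupp.single 0 (D * 2 - 1)) 1 := by
      rw [h1, monomial_mul, ← Finsupp.single_add, smul_monomial, smul_eq_mul, mul_one]
      have e : D + (D - 1) = D * 2 - 1 := by omega
      rw [e]
    have h3 : (monomial (Finsupp.single 0 (D - 1)) (δ c) : MvPolynomial (Fin (0 + 1)) A) =
        δ c • monomial (Finsupp.single 0 (D * 1 - 1)) 1 := by
      rw [smul_monomial, smul_eq_mul, mul_one, mul_one]
    rw [h2, h3, map_sub, map_smul, map_smul, mul_smul]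
    have h4 := v1_succ hP hD hD0 1 le_rfl
    rw [Nat.cast_one, one_smul] at h4
    change δ c • v1 D P 1 - δ c • c • v1 D P 2 = 0
    rw [h4, sub_self]
  | n + 1, P, hP => by
    rw [eCl_succ, nab_iota, nab_eCl δ D hD hD0 n (face P) (face_isHomogeneous hP), map_zero]

/-- an alternating telescoping sum -/
theorem tele {W : Type} [AddCommGroup W] (f : ℕ → W) (J : ℕ) :
    ∑ j ∈ range J, (f j - f (j + 1)) = f 0 - f J := by
  exact Finset.sum_range_sub' f J

namespace FD

theorem Psi_eCl_zero (F : FD 0 A) (hD : 0 < F.D) (hJ : 1 ≤ F.J) (e : A)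
    (hE : F.E = monomial (Finsupp.single 0 (F.p * F.D)) e) :
    F.Psi hD (eCl F.D F.P) = eCl F.D F.P' := by
  classical
  change F.psi0 (eP0 F.D 0 F.P) = cls F.P' (eP0 F.D 0 F.P')
  rw [eP0_zero, eP0_zero]
  set c := coeff (Finsupp.single 0 F.D) F.P with hc
  set c' := coeff (Finsupp.single 0 F.D) F.P' with hc'
  have hp0 := F.hp0
  have hcP : F.P = monomial (Finsupp.single 0 F.D) c := homog_one F.hP
  have hcP' : F.P' = monomial (Finsupp.single 0 F.D) c' := homog_one F.hP'
  -- the relation between the leading coefficients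
  have hcc : c ^ F.p = c' + (F.p : A) * e := by
    have h1 := congrArg (coeff (Finsupp.single 0 (F.p * F.D))) F.hPE
    have h2 : expand F.p (monomial (Finsupp.single 0 F.D) c' : MvPolynomial (Fin (0 + 1)) A) =
        monomial (Finsupp.single 0 (F.p * F.D)) c' := by
      rw [expand_mon, Finsupp.smul_single, smul_eq_mul]
    rw [hcP, hcP', hE, h2, monomial_pow, Finsupp.smul_single, smul_eq_mul, coeff_monomial,
      if_pos rfl, coeff_add, coeff_monomial, if_pos rfl] at h1
    rw [h1]
    congr 1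
    have h3 : (F.p : MvPolynomial (Fin (0 + 1)) A) = C (F.p : A) := by rw [map_natCast]
    rw [h3, coeff_C_mul, coeff_monomial, if_pos rfl]
  have hl : lev (F.D * 1) (monomial (Finsupp.single 0 (F.D - 1)) c :
      MvPolynomial (Fin (0 + 1)) A) = monomial (Finsupp.single 0 (F.D - 1)) c := by
    rw [lev_monomial, if_pos]
    rw [Finsupp.degree_single]
    omega
  rw [← hl, F.psi0_lev hD 1 le_rfl 1 le_rfl (by omega), hl]
  unfold psiT
  have hK : K 1 1 = 1 := by decide
  rw [hK, Nat.cast_one, one_smul]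
  unfold r rho
  -- the terms
  have hterm : ∀ j, tau F.p F.D F.P' (1 + j) (monomial (Finsupp.single 0 (F.D - 1)) c *
      F.P ^ (F.p * 1 - 1) * F.E ^ j) = (c ^ F.p * e ^ j) • v1 F.D F.P' (j + 1) := by
    intro j
    have e1 : (monomial (Finsupp.single 0 (F.D - 1)) c * F.P ^ (F.p * 1 - 1) * F.E ^ j :
        MvPolynomial (Fin (0 + 1)) A) =
        monomial (Finsupp.single 0 (F.p * (F.D * (j + 1)) - 1)) (c ^ F.p * e ^ j) := by
      rw [hcP, hE, monomial_pow, monomial_pow, monomial_mul, monomial_mul, Finsupp.smul_single,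
        Finsupp.smul_single, ← Finsupp.single_add, ← Finsupp.single_add, smul_eq_mul, smul_eq_mul,
        mul_one]
      have e2 : F.D - 1 + (F.p - 1) * F.D + j * (F.p * F.D) = F.p * (F.D * (j + 1)) - 1 := by
        obtain ⟨q, hq⟩ : ∃ q, F.p = q + 1 := ⟨F.p - 1, by omega⟩
        obtain ⟨d, hd⟩ : ∃ d, F.D = d + 1 := ⟨F.D - 1, by omega⟩
        rw [hq, hd]
        simp only [Nat.add_sub_cancel]
        have : (q + 1) * ((d + 1) * (j + 1)) = (d + q * (d + 1) + j * ((q + 1) * (d + 1))) + 1 := by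
          ring
        rw [this, Nat.add_sub_cancel]
      have e3 : c * c ^ (F.p - 1) = c ^ F.p := by
        rw [← pow_succ', Nat.sub_add_cancel hp0]
      rw [e2, e3]
    have hpos : 0 < F.D * (j + 1) := Nat.mul_pos hD (Nat.succ_pos j)
    have hpos2 : 0 < F.p * (F.D * (j + 1)) := Nat.mul_pos hp0 hpos
    rw [e1, tau_apply, lev_monomial, if_pos, psi_monomial, if_pos]
    · have e4 : dsh F.p (Finsupp.single (0 : Fin (0 + 1)) (F.p * (F.D * (j + 1)) - 1)) =
          Finsupp.single 0 (F.D * (j + 1) - 1) := by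
        ext i
        have hi : i = (0 : Fin (0 + 1)) := Fin.eq_of_val_eq (by omega)
        subst hi
        rw [dsh_apply, Finsupp.single_eq_same, Finsupp.single_eq_same, Nat.sub_add_cancel hpos2,
          Nat.mul_div_cancel_left _ hp0]
      rw [e4, v1, ← map_smul, smul_monomial, smul_eq_mul, mul_one]
    · intro i
      have hi : i = (0 : Fin (0 + 1)) := Fin.eq_of_val_eq (by omega)
      subst hi
      rw [Finsupp.single_eq_same, Nat.sub_add_cancel hpos2]
      exact Dvd.intro _ rfl
    · rw [Finsupp.degree_single, add_comm 1 j]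
      omega
  -- telescoping
  let f : ℕ → VP F.P' := fun j => ((-1) ^ j * ((j : A) * F.γ j) * e ^ j) • v1 F.D F.P' j
  have hmain : ∀ j, 1 ≤ j → ((-1) ^ j * F.γ j) • ((c ^ F.p * e ^ j) • v1 F.D F.P' (j + 1)) =
      f j - f (j + 1) := by
    intro j hj
    have h1 := v1_succ F.hP' F.hD hD j hj
    rw [← hc'] at h1
    have h2 : ((-1) ^ j * F.γ j) • ((c ^ F.p * e ^ j) • v1 F.D F.P' (j + 1)) =
        ((-1) ^ j * F.γ j * e ^ j) • (c' • v1 F.D F.P' (j + 1)) +
        ((-1) ^ j * ((F.p : A) * F.γ j) * e ^ (j + 1)) • v1 F.D F.P' (j + 1) := by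
      rw [hcc]
      module
    rw [h2, h1, ← F.γs j]
    simp only [f]
    module
  have h0 : ((-1) ^ 0 * F.γ 0) • ((c ^ F.p * e ^ 0) • v1 F.D F.P' (0 + 1)) =
      c' • v1 F.D F.P' 1 - f 1 := by
    rw [hcc]
    have := F.γs 0
    rw [F.γ0, mul_one, zero_add] at this
    simp only [f]
    rw [this, F.γ0]
    module
  rw [Finset.sum_congr rfl fun j _ => congrArg _ (hterm j)]
  obtain ⟨J', hJ'⟩ : ∃ J', F.J = J' + 1 := ⟨F.J - 1, by omega⟩
  rw [hJ', Finset.sum_range_succ', h0,
    Finset.sum_congr rfl fun j _ => hmain (j + 1) (Nat.succ_pos j),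
    Finset.sum_range_sub' (fun j => f (j + 1)) J']
  have hfJ : f (J' + 1) = 0 := by
    simp only [f]
    rw [F.γJ (J' + 1) (by omega)]
    simp
  rw [hfJ, sub_zero]
  have e5 : c' • v1 F.D F.P' 1 = cls F.P' (monomial (Finsupp.single 0 (F.D - 1)) c') := by
    rw [v1, ← map_smul, smul_monomial, smul_eq_mul, mul_one, mul_one]
  rw [← e5]
  change f 1 + (c' • v1 F.D F.P' 1 - f 1) = c' • v1 F.D F.P' 1
  abel

/-- the Cartier operator on `e_P` -/
theorem Psi_eCl : ∀ (n : ℕ) (F : FD n A) (hD : 0 < F.D) (_ : 1 ≤ F.J)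
    (_ : F.E.IsHomogeneous (F.p * F.D)), F.Psi hD (eCl F.D F.P) = ((F.p : A) ^ n) • eCl F.D F.P'
  | 0, F, hD, hJ, hE => by
    rw [pow_zero, one_smul]
    exact F.Psi_eCl_zero hD hJ _ (homog_one hE)
  | n + 1, F, hD, hJ, hE => by
    have ih := Psi_eCl n F.face hD hJ (face_isHomogeneous hE)
    have h1 : F.Psi hD (iota F.P (eCl F.D (CUBE.face F.P))) =
        (F.p : A) • iota F.P' (F.face.Psi hD (eCl F.D (CUBE.face F.P))) := F.Psi_iota hD _
    have h2 : F.face.Psi hD (eCl F.D (CUBE.face F.P)) =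
        ((F.p : A) ^ n) • eCl F.D (CUBE.face F.P') := ih
    rw [eCl_succ, eCl_succ, h1, h2, map_smul, smul_smul, pow_succ']

end FD

end

end Pool.CUBE
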