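import Mathlib
import Pool.Agent.H98.CUBE.EP

/-!
The coefficients of the truncated Frobenius `y_N`.
-/

set_option autoImplicit false

open Finset MvPolynomial

namespace Pool.CUBE

/-- the part prime to `p` of `(p N)! / N!` -/
def uN (p N : ℕ) : ℕ := ∏ i ∈ (range (p * N)).filter (fun i => ¬ p ∣ i), i

theorem factorial_uN (p N : ℕ) (hp : 0 < p) :
    (p * N).factorial = p ^ N * N.factorial * uN p N := by
  have h1 : (p * N).factorial = ∏ i ∈ Ico 1 (p * N + 1), i := by
    rw [Finset.prod_Ico_id_eq_factorial]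
  rw [h1, ← Finset.prod_filter_mul_prod_filter_not (Ico 1 (p * N + 1)) (fun i => p ∣ i)]
  congr 1
  · have h2 : (Ico 1 (p * N + 1)).filter (fun i => p ∣ i) =
        (Ico 1 (N + 1)).image (fun i => p * i) := by
      ext i
      simp only [Finset.mem_filter, Finset.mem_Ico, Finset.mem_image]
      constructor
      · rintro ⟨⟨h1, h2⟩, k, rfl⟩
        refine ⟨k, ⟨?_, ?_⟩, rfl⟩
        · rcases Nat.eq_zero_or_pos k with h0 | h0
          · rw [h0, mul_zero] at h1; omega
          · exact h0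
        · have := Nat.le_of_mul_le_mul_left (Nat.lt_succ_iff.1 h2) hp
          omega
      · rintro ⟨k, ⟨h1, h2⟩, rfl⟩
        refine ⟨⟨Nat.mul_pos hp h1, ?_⟩, Dvd.intro _ rfl⟩
        exact Nat.lt_succ_iff.2 (Nat.mul_le_mul_left p (Nat.lt_succ_iff.1 h2))
    rw [h2, Finset.prod_image (fun a _ b _ h => Nat.eq_of_mul_eq_mul_left hp h),
      Finset.prod_mul_distrib, Finset.prod_const, Nat.card_Ico, Nat.add_sub_cancel,
      Finset.prod_Ico_id_eq_factorial]
  · unfold uN
    refine Finset.prod_congr ?_ fun _ _ => rfl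
    ext i
    simp only [Finset.mem_filter, Finset.mem_Ico, Finset.mem_range]
    constructor
    · rintro ⟨⟨h1, h2⟩, h3⟩
      refine ⟨?_, h3⟩
      rcases Nat.lt_or_ge i (p * N) with h | h
      · exact h
      · exact absurd (Dvd.intro N (by omega)) h3
    · rintro ⟨h1, h2⟩
      refine ⟨⟨?_, by omega⟩, h2⟩
      rcases Nat.eq_zero_or_pos i with h0 | h0
      · rw [h0] at h2; exact absurd (dvd_zero p) h2
      · exact h0

theorem K_pN (p N : ℕ) (hp : 0 < p) (hN : 1 ≤ N) : FD.K (p * N) N = p ^ (N - 1) * uN p N := by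
  have hpN : N ≤ p * N := Nat.le_mul_of_pos_left N hp
  have h1 := Nat.factorial_mul_descFactorial (n := p * N - 1) (k := p * N - N) (by omega)
  have e1 : p * N - 1 - (p * N - N) = N - 1 := by omega
  rw [e1] at h1
  have h2 := factorial_uN p N hp
  have h3 : (p * N).factorial = p * N * (p * N - 1).factorial := by
    rw [Nat.mul_factorial_pred (by omega)]
  have h4 : N.factorial = N * (N - 1).factorial := by
    rw [Nat.mul_factorial_pred (by omega)]
  have h5 : p ^ N = p * p ^ (N - 1) := by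
    rw [← pow_succ', Nat.sub_add_cancel hN]
  unfold FD.K
  have h6 : 0 < p * N * (N - 1).factorial :=
    Nat.mul_pos (by omega) (Nat.factorial_pos _)
  refine Nat.eq_of_mul_eq_mul_left h6 ?_
  calc p * N * (N - 1).factorial * (p * N - 1).descFactorial (p * N - N)
      = p * N * ((N - 1).factorial * (p * N - 1).descFactorial (p * N - N)) := by ring
    _ = (p * N).factorial := by rw [h1, h3]
    _ = _ := by rw [h2, h4, h5]; ring

theorem uN_isUnit {A : Type} [CommRing A] (p N : ℕ)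
    (hu : ∀ i : ℕ, ¬ p ∣ i → IsUnit (i : A)) : IsUnit ((uN p N : ℕ) : A) := by
  unfold uN
  rw [Nat.cast_prod]
  refine Finset.prod_induction _ IsUnit (fun a b ha hb => ha.mul hb) isUnit_one ?_
  intro i hi
  exact hu i (Finset.mem_filter.1 hi).2

theorem factorial_isUnit {A : Type} [CommRing A] (p j : ℕ) (hp : p.Prime) (hj : j < p)
    (hu : ∀ i : ℕ, ¬ p ∣ i → IsUnit (i : A)) : IsUnit ((j.factorial : ℕ) : A) :=
  hu _ fun h => absurd ((hp.dvd_factorial).1 h) (by omega)

section
variable {n : ℕ} {A : Type} [CommRing A]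

/-- the coefficients of `y_N` at level `m`: `p ^ (n + 1 - m) / (j! u_(m+j))` -/
noncomputable def cY (n p m j : ℕ) (A : Type) [CommRing A] : A :=
  (p : A) ^ (n + 1 - m) * Ring.inverse (((j.factorial * uN p (m + j) : ℕ)) : A)

theorem cY_spec (p m j : ℕ) (hp : p.Prime) (hm : 1 ≤ m) (hmn : m ≤ n + 1) (hj : j < p)
    (hu : ∀ i : ℕ, ¬ p ∣ i → IsUnit (i : A)) (γ : A) (hγ : ((j.factorial : ℕ) : A) * γ = (p : A) ^ j) :
    cY n p m j A * ((FD.K (p * (m + j)) (m + j) : ℕ) : A) = (p : A) ^ n * γ := by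
  have h1 := factorial_isUnit p j hp hj hu
  have h2 := uN_isUnit (A := A) p (m + j) hu
  have h3 : IsUnit (((j.factorial * uN p (m + j) : ℕ)) : A) := by
    rw [Nat.cast_mul]; exact h1.mul h2
  rw [K_pN p (m + j) hp.pos (by omega)]
  unfold cY
  have h4 := Ring.inverse_mul_cancel _ h3
  set w := Ring.inverse (((j.factorial * uN p (m + j) : ℕ)) : A) with hw
  refine h1.mul_left_cancel ?_
  have e1 : (p : A) ^ (n + 1 - m) * (p : A) ^ (m + j - 1) = (p : A) ^ n * (p : A) ^ j := by
    rw [← pow_add, ← pow_add]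
    congr 1
    omega
  push_cast at h4 ⊢
  calc (j.factorial : A) * ((p : A) ^ (n + 1 - m) * w * ((p : A) ^ (m + j - 1) * (uN p (m + j) : A)))
      = ((p : A) ^ (n + 1 - m) * (p : A) ^ (m + j - 1)) *
        (w * ((j.factorial : A) * (uN p (m + j) : A))) := by ring
    _ = (p : A) ^ n * (p : A) ^ j := by rw [h4, mul_one, e1]
    _ = (j.factorial : A) * ((p : A) ^ n * γ) := by rw [← hγ]; ring

namespace FD
variable (F : FD n A)

theorem γ_factorial (j : ℕ) : ((j.factorial : ℕ) : A) * F.γ j = (F.p : A) ^ j := by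
  induction j with
  | zero => rw [Nat.factorial_zero, F.γ0]; simp
  | succ j ih =>
    rw [Nat.factorial_succ, pow_succ, ← ih]
    have := F.γs j
    push_cast at this ⊢
    linear_combination (j.factorial : A) * this

/-- `Ψ (y_N g) = p ^ n [g]` for `g` of weight `D m`, `1 ≤ m ≤ n + 1` -/
theorem Psi_yN (hD : 0 < F.D) (hJ : 1 ≤ F.J) (hJp : F.J ≤ F.p) (hp : F.p.Prime)
    (hE : F.E.IsHomogeneous (F.p * F.D)) (hu : ∀ i : ℕ, ¬ F.p ∣ i → IsUnit (i : A)) (m : ℕ)
    (hm : 1 ≤ m) (hmn : m ≤ n + 1) (g : MvPolynomial (Fin (n + 1)) A)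
    (hg : lev (F.D * m) g = g) :
    F.Psi hD (cls F.P (F.yN (fun j => cY n F.p m j A) g)) = ((F.p : A) ^ n) • cls F.P' g := by
  rw [Psi_cls, ← hg]
  refine F.psi0_yN hD hJ hE m hm _ _ (fun j hj => ?_) g
  exact cY_spec F.p m j hp hm hmn (by omega) hu (F.γ j) (F.γ_factorial j)

end FD

end

end Pool.CUBE
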