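import Mathlib
import Pool.Agent.H98.CUBE.Coef
import Pool.Agent.H41.CUBE.TStmts

/-!
The modules EPSI and EHOR of the board `cubt`.
-/

set_option autoImplicit false

open Finset MvPolynomial

namespace Pool.CUBE

section
variable {A : Type} [CommRing A]

theorem eP_eq (D : ℕ) : ∀ (n : ℕ) (P : Poly n A), eP D n P = eP0 D n P
  | 0, _ => rfl
  | n + 1, P => by
    change pderiv 0 P * rename Fin.succ (eP D n (faceP P)) = pderiv 0 P * up (eP0 D n (face P))
    rw [eP_eq D n (faceP P)]
    rfl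

end

theorem epsi : EPSIStmt := by
  intro n A _ F hD hE _ hJ
  rw [eP_eq, eP_eq]
  exact F.Psi_eCl n hD hJ hE

theorem ehor (n D : ℕ) (A : Type) [CommRing A] (P : Poly n A) (hD0 : 0 < D)
    (hD : IsUnit (D : A)) (hP : P.IsHomogeneous D) (δ : Derivation ℤ A A) :
    nab0 δ P (eP D n P) ∈ Rel P := by
  have h := nab_eCl δ D hD hD0 n P hP
  rw [eP_eq]
  exact (Submodule.Quotient.mk_eq_zero _).1 h

end Pool.CUBE
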