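import Pool.Agent.H41.CUBE.JStmts
import Pool.Agent.H98.CUBE.JF.Inv
import Pool.Agent.H98.CUBE.Psi

/-!
# Cube project: the two expansions of `g / P ^ m` (module F2 of the board `cubj`)
-/

set_option autoImplicit false

open Finset MvPolynomial

namespace Pool.CUBE

namespace JF

/-- the two expansions of `g / P ^ m`, abstract form -/
theorem f2_abs {C : Type} [CommRing C] (q y σ g a b E Es pp : C) (D p J L L' m t : ℕ)
    (tl : ℕ → ℕ) (hq : q * y = 1) (hS : σ ^ p = q + pp * Es)
    (hP : (σ ^ D - a) ^ p = (q ^ D - b) + pp * E) (hpp : pp ^ J = 0) (hJ : 1 ≤ J) (hL : 1 ≤ L)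
    (hL' : 1 ≤ L') (ha : a ^ L = 0) (hb : b ^ L' = 0) (hp : 2 ≤ p) (hmt : m ≤ p * t)
    (htl : ∀ l < L, D * (m + l) ≤ p * tl l) :
    ∑ j ∈ range J, ∑ l ∈ range L', ((t + j - 1).choose j : C) * (-pp) ^ j *
        ((t + j + l - 1).choose l : C) * (g * (σ ^ D - a) ^ (p * t - m) * E ^ j * b ^ l) *
        y ^ (D * (t + j + l)) =
      ∑ l ∈ range L, ∑ j ∈ range J, ((m + l - 1).choose l : C) *
        (((tl l + j - 1).choose j : C) * (-pp) ^ j) *
        (g * a ^ l * σ ^ (p * tl l - D * (m + l)) * Es ^ j) * y ^ (tl l + j) := by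
  have h1 : ∀ x : C, (pp * x) ^ J = 0 := fun x => by rw [mul_pow, hpp, zero_mul]
  -- the inverse of `σ`
  obtain ⟨σ', hσ⟩ : ∃ σ', σ * σ' = 1 := by
    have h2 := nb_spec q y (pp * Es) J 1 hq (h1 Es) hJ
    rw [pow_one, ← hS] at h2
    refine ⟨σ ^ (p - 1) * nb y (pp * Es) J 1, ?_⟩
    rw [← mul_assoc, ← pow_succ', Nat.sub_add_cancel (by omega : 1 ≤ p), h2]
  have ha' : (-a) ^ L = 0 := by rw [neg_pow, ha, mul_zero]
  have hb' : (-b) ^ L' = 0 := by rw [neg_pow, hb, mul_zero]
  have hR := nb_spec (σ ^ D) (σ' ^ D) (-a) L m (by rw [← mul_pow, hσ, one_pow]) ha' hL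
  rw [← sub_eq_add_neg] at hR
  -- right side
  have hr : ∑ l ∈ range L, ∑ j ∈ range J, ((m + l - 1).choose l : C) *
        (((tl l + j - 1).choose j : C) * (-pp) ^ j) *
        (g * a ^ l * σ ^ (p * tl l - D * (m + l)) * Es ^ j) * y ^ (tl l + j) =
      g * nb (σ' ^ D) (-a) L m := by
    rw [nb, Finset.mul_sum]
    refine Finset.sum_congr rfl fun l hl => ?_
    rw [← pow_mul, sig_exp q y σ σ' (pp * Es) p (D * (m + l)) (tl l) J hq hσ (h1 Es) hJ hS
      (htl l (Finset.mem_range.1 hl)), Finset.mul_sum, Finset.mul_sum, Finset.mul_sum]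
    refine Finset.sum_congr rfl fun j _ => ?_
    have e1 : (-1 : C) ^ l * (-a) ^ l = a ^ l := by rw [← mul_pow]; ring
    calc ((m + l - 1).choose l : C) * (((tl l + j - 1).choose j : C) * (-pp) ^ j) *
        (g * a ^ l * σ ^ (p * tl l - D * (m + l)) * Es ^ j) * y ^ (tl l + j)
        = ((m + l - 1).choose l : C) * (((tl l + j - 1).choose j : C) * (-pp) ^ j) *
        (g * ((-1 : C) ^ l * (-a) ^ l) * σ ^ (p * tl l - D * (m + l)) * Es ^ j) *
          y ^ (tl l + j) := by rw [e1]
      _ = _ := by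
        rw [neg_pow pp, mul_pow]
        ring
  -- left side
  set w := nb (y ^ D) (-b) L' 1 with hw
  have hw1 : (q ^ D - b) * w = 1 := by
    have := nb_spec (q ^ D) (y ^ D) (-b) L' 1 (by rw [← mul_pow, hq, one_pow]) hb' hL'
    rwa [pow_one, ← sub_eq_add_neg] at this
  have hS' := nb_spec (q ^ D - b) w (pp * E) J t hw1 (h1 E) hJ
  rw [← hP, ← pow_mul] at hS'
  have hl : ∑ j ∈ range J, ∑ l ∈ range L', ((t + j - 1).choose j : C) * (-pp) ^ j *
        ((t + j + l - 1).choose l : C) * (g * (σ ^ D - a) ^ (p * t - m) * E ^ j * b ^ l) *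
        y ^ (D * (t + j + l)) =
      g * ((σ ^ D - a) ^ (p * t - m) * nb w (pp * E) J t) := by
    unfold nb
    rw [Finset.mul_sum, Finset.mul_sum]
    refine Finset.sum_congr rfl fun j _ => ?_
    have h3 : w ^ (t + j) = nb (y ^ D) (-b) L' (t + j) :=
      (nb_pow _ _ (-b) L' (t + j) (by rw [← mul_pow, hq, one_pow] : q ^ D * y ^ D = 1) hb'
        hL').symm
    rw [h3, nb, Finset.mul_sum, Finset.mul_sum, Finset.mul_sum]
    refine Finset.sum_congr rfl fun l _ => ?_
    have e1 : (-1 : C) ^ l * (-b) ^ l = b ^ l := by rw [← mul_pow]; ring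
    calc ((t + j - 1).choose j : C) * (-pp) ^ j *
        ((t + j + l - 1).choose l : C) * (g * (σ ^ D - a) ^ (p * t - m) * E ^ j * b ^ l) *
        y ^ (D * (t + j + l))
        = ((t + j - 1).choose j : C) * (-pp) ^ j *
        ((t + j + l - 1).choose l : C) * (g * (σ ^ D - a) ^ (p * t - m) * E ^ j *
          ((-1 : C) ^ l * (-b) ^ l)) * y ^ (D * (t + j + l)) := by rw [e1]
      _ = _ := by
        rw [neg_pow pp, mul_pow, ← pow_mul]
        ring
  rw [hl, hr]
  have h5 : (σ ^ D - a) ^ (p * t) = (σ ^ D - a) ^ m * (σ ^ D - a) ^ (p * t - m) := by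
    rw [← pow_add, Nat.add_sub_cancel' hmt]
  rw [h5] at hS'
  congr 1
  calc (σ ^ D - a) ^ (p * t - m) * nb w (pp * E) J t
      = (σ ^ D - a) ^ (p * t - m) * nb w (pp * E) J t *
        ((σ ^ D - a) ^ m * nb (σ' ^ D) (-a) L m) := by rw [hR, mul_one]
    _ = ((σ ^ D - a) ^ m * (σ ^ D - a) ^ (p * t - m) * nb w (pp * E) J t) *
        nb (σ' ^ D) (-a) L m := by ring
    _ = _ := by rw [hS', one_mul]

end JF

namespace F2m

section
variable {n : ℕ} {A : Type} [CommRing A]

theorem lev_eq_of_Wt {N : ℕ} {g : Poly n A} (h : Wt N g) : lev N g = g := by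
  classical
  conv_lhs => rw [g.as_sum, map_sum]
  conv_rhs => rw [g.as_sum]
  refine Finset.sum_congr rfl fun a ha => ?_
  rw [lev_monomial, if_pos (h a (mem_support_iff.1 ha))]

theorem lev_mul_Wt {Φ : Poly n A} {d N : ℕ} (hΦ : Φ.IsHomogeneous d) {g : Poly n A}
    (h : Wt N g) : lev (N + d) (g * Φ) = g * Φ := by
  rw [mul_comm, lev_mul hΦ, lev_eq_of_Wt h]

/-- `IoA` is linear -/
theorem IoA_add (s : ℕ) (g h : Poly n A) : IoA s (g + h) = IoA s g + IoA s h := by
  rw [IoA, map_add, map_add, mul_add]; rfl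

theorem IoA_zero (s : ℕ) : IoA s (0 : Poly n A) = 0 := by
  rw [IoA, map_zero, map_zero, mul_zero]

theorem IoA_C_mul (s : ℕ) (c : A) (h : Poly n A) : IoA s (C c * h) = c * IoA s h := by
  rw [IoA, ← MvPolynomial.smul_eq_C_mul, map_smul, map_smul, smul_eq_mul, IoA]
  ring

theorem WF_add (p : ℕ) (v w : Polynomial (Poly n A)) : WF p (v + w) = WF p v + WF p w := by
  unfold WF
  refine Polynomial.sum_add_index v w _ (fun i => ?_) (fun i g h => ?_)
  · rw [map_zero, map_zero, IoA_zero]
  · rw [map_add, map_add, IoA_add]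

theorem WF_zero (p : ℕ) : WF p (0 : Polynomial (Poly n A)) = 0 := by
  unfold WF
  exact Polynomial.sum_zero_index _

theorem WF_monomial (p s : ℕ) (h : Poly n A) :
    WF p (Polynomial.monomial s h) = IoA s (psi p (lev (p * s) h)) := by
  unfold WF
  exact Polynomial.sum_monomial_index _ _ (by rw [map_zero, map_zero, IoA_zero])

/-- `WF` as a homomorphism -/
noncomputable def WFh (p : ℕ) : Polynomial (Poly n A) →+ A where
  toFun := WF p
  map_zero' := WF_zero p
  map_add' := WF_add p

theorem WFh_apply (p : ℕ) (w : Polynomial (Poly n A)) : WFh p w = WF p w := rfl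

theorem Sg_isHomogeneous : (Sg n A).IsHomogeneous 1 :=
  MvPolynomial.IsHomogeneous.sum _ _ _ fun i _ => isHomogeneous_X A i

end

end F2m

open F2m

theorem F2_proof (hWF : WFStmt) : F2Stmt := by
  intro A _ n D p J L L' hD hp2 hpJ hunit Xa Xb E Es hXa hXb hXaL hXbL hE hEs hPp hSp m t hm ht
    hmt hbd tl htl g hg
  rcases subsingleton_or_nontrivial A with hA | hA
  · exact Subsingleton.elim _ _
  have hL : 1 ≤ L := by
    rcases Nat.eq_zero_or_pos L with rfl | h
    · rw [pow_zero] at hXaL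
      exact absurd hXaL one_ne_zero
    · exact h
  have hL' : 1 ≤ L' := by
    rcases Nat.eq_zero_or_pos L' with rfl | h
    · rw [pow_zero] at hXbL
      exact absurd hXbL one_ne_zero
    · exact h
  have hJ : 1 ≤ J := by
    rcases Nat.eq_zero_or_pos J with rfl | h
    · rw [pow_zero] at hpJ
      exact absurd hpJ one_ne_zero
    · exact h
  have hp0 : 0 < p := by omega
  set P := Sg n A ^ D - Xa with hPdef
  set q := expand p (Sg n A) with hqdef
  have hPh : P.IsHomogeneous D := by
    have := (Sg_isHomogeneous (n := n) (A := A)).pow D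
    rw [one_mul] at this
    exact this.sub hXa
  -- the two polynomials
  let w1 : Polynomial (Poly n A) := ∑ j ∈ range J, ∑ l ∈ range L',
    Polynomial.monomial (D * (t + j + l)) (C (((t + j - 1).choose j : A) * (-(p : A)) ^ j *
      ((t + j + l - 1).choose l : A)) * (g * P ^ (p * t - m) * E ^ j * (expand p Xb) ^ l))
  let w2 : Polynomial (Poly n A) := ∑ l ∈ range L, ∑ j ∈ range J,
    Polynomial.monomial (tl l + j) (C (((m + l - 1).choose l : A) *
      (((tl l + j - 1).choose j : A) * (-(p : A)) ^ j)) *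
      (g * Xa ^ l * Sg n A ^ (p * tl l - D * (m + l)) * Es ^ j))
  -- values
  have v1 : WF p w1 = ∑ j ∈ range J, ∑ l ∈ range L', ((t + j - 1).choose j : A) *
      (-(p : A)) ^ j * ((t + j + l - 1).choose l : A) *
      IoA (D * (t + j + l)) (psi p (g * P ^ (p * t - m) * E ^ j) * Xb ^ l) := by
    rw [← WFh_apply, map_sum]
    refine Finset.sum_congr rfl fun j _ => ?_
    rw [map_sum]
    refine Finset.sum_congr rfl fun l _ => ?_
    rw [WFh_apply, WF_monomial, ← MvPolynomial.smul_eq_C_mul, map_smul, map_smul,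
      MvPolynomial.smul_eq_C_mul, IoA_C_mul]
    congr 2
    have hhom : (P ^ (p * t - m) * E ^ j * (expand p Xb) ^ l).IsHomogeneous
        (D * (p * t - m) + p * D * j + p * D * l) :=
      ((hPh.pow _).mul (hE.pow j)).mul ((expand_isHomogeneous hXb p).pow l)
    have hN : D * m + (D * (p * t - m) + p * D * j + p * D * l) = p * (D * (t + j + l)) := by
      have : D * m + D * (p * t - m) = D * (p * t) := by
        rw [← mul_add, Nat.add_sub_cancel' hmt]
      calc D * m + (D * (p * t - m) + p * D * j + p * D * l)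
          = (D * m + D * (p * t - m)) + p * D * j + p * D * l := by ring
        _ = _ := by rw [this]; ring
    have e1 : lev (p * (D * (t + j + l))) (g * P ^ (p * t - m) * E ^ j * (expand p Xb) ^ l) =
        (expand p (Xb ^ l)) * (g * P ^ (p * t - m) * E ^ j) := by
      have e2 : g * P ^ (p * t - m) * E ^ j * (expand p Xb) ^ l =
          g * (P ^ (p * t - m) * E ^ j * (expand p Xb) ^ l) := by ring
      rw [← hN, e2, lev_mul_Wt hhom hg, map_pow]
      ring
    rw [e1, psi_expand_mul p hp0, mul_comm]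
  have v2 : WF p w2 = ∑ l ∈ range L, ((m + l - 1).choose l : A) * ∑ j ∈ range J,
        ((tl l + j - 1).choose j : A) * (-(p : A)) ^ j *
        IoA (tl l + j) (psi p (g * Xa ^ l * Sg n A ^ (p * tl l - D * (m + l)) * Es ^ j)) := by
    rw [← WFh_apply, map_sum]
    refine Finset.sum_congr rfl fun l hl => ?_
    rw [map_sum, Finset.mul_sum]
    refine Finset.sum_congr rfl fun j _ => ?_
    rw [WFh_apply, WF_monomial, ← MvPolynomial.smul_eq_C_mul, map_smul, map_smul,
      MvPolynomial.smul_eq_C_mul, IoA_C_mul, mul_assoc]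
    congr 4
    obtain ⟨-, hle, -⟩ := htl l (Finset.mem_range.1 hl)
    have hhom : (Xa ^ l * Sg n A ^ (p * tl l - D * (m + l)) * Es ^ j).IsHomogeneous
        (D * l + 1 * (p * tl l - D * (m + l)) + p * j) :=
      ((hXa.pow l).mul ((Sg_isHomogeneous (n := n) (A := A)).pow _)).mul (hEs.pow j)
    have hN : D * m + (D * l + 1 * (p * tl l - D * (m + l)) + p * j) = p * (tl l + j) := by
      have : D * (m + l) + (p * tl l - D * (m + l)) = p * tl l := Nat.add_sub_cancel' hle
      calc D * m + (D * l + 1 * (p * tl l - D * (m + l)) + p * j)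
          = (D * (m + l) + (p * tl l - D * (m + l))) + p * j := by ring
        _ = _ := by rw [this]; ring
    have e2 : g * Xa ^ l * Sg n A ^ (p * tl l - D * (m + l)) * Es ^ j =
        g * (Xa ^ l * Sg n A ^ (p * tl l - D * (m + l)) * Es ^ j) := by ring
    rw [← hN, e2, lev_mul_Wt hhom hg]
  rw [← v1, ← v2]
  -- degree
  have d1 : w1.natDegree ≤ p - 1 := by
    refine Polynomial.natDegree_sum_le_of_forall_le _ _ fun j hj => ?_
    refine Polynomial.natDegree_sum_le_of_forall_le _ _ fun l hl => ?_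
    refine (Polynomial.natDegree_monomial_le _).trans ?_
    have h1 := Finset.mem_range.1 hj
    have h2 := Finset.mem_range.1 hl
    have : D * (t + j + l) ≤ D * (t + J + L') := Nat.mul_le_mul_left _ (by omega)
    omega
  have d2 : w2.natDegree ≤ p - 1 := by
    refine Polynomial.natDegree_sum_le_of_forall_le _ _ fun l hl => ?_
    refine Polynomial.natDegree_sum_le_of_forall_le _ _ fun j hj => ?_
    refine (Polynomial.natDegree_monomial_le _).trans ?_
    have h1 := Finset.mem_range.1 hj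
    obtain ⟨-, -, h3⟩ := htl l (Finset.mem_range.1 hl)
    omega
  have d3 : (w1 - w2).natDegree < p := by
    have := Polynomial.natDegree_sub_le_of_le d1 d2
    rw [max_self] at this
    omega
  -- membership
  have hmem : w1 - w2 ∈ Ideal.span {(1 - Polynomial.C (expand p (Sg n A)) * Polynomial.X :
      Polynomial (Poly n A))} := by
    rw [← Ideal.Quotient.eq]
    set I := Ideal.span {(1 - Polynomial.C (expand p (Sg n A)) * Polynomial.X :
      Polynomial (Poly n A))} with hI
    let κ : Poly n A →+* (Polynomial (Poly n A) ⧸ I) :=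
      (Ideal.Quotient.mk I).comp Polynomial.C
    let y : Polynomial (Poly n A) ⧸ I := Ideal.Quotient.mk I Polynomial.X
    have hmon : ∀ (s : ℕ) (h : Poly n A), Ideal.Quotient.mk I (Polynomial.monomial s h) =
        κ h * y ^ s := by
      intro s h
      rw [← Polynomial.C_mul_X_pow_eq_monomial, map_mul, map_pow]
      rfl
    have hqy : κ q * y = 1 := by
      have : (1 : Polynomial (Poly n A)) - Polynomial.C q * Polynomial.X ∈ I :=
        Ideal.subset_span rfl
      rw [← Ideal.Quotient.eq, map_one, map_mul] at this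
      exact this.symm
    have hS : κ (Sg n A) ^ p = κ q + (p : Polynomial (Poly n A) ⧸ I) * κ Es := by
      rw [← map_pow, hSp, map_add, map_mul, map_natCast]
    have hP' : (κ (Sg n A) ^ D - κ Xa) ^ p = (κ q ^ D - κ (expand p Xb)) +
        (p : Polynomial (Poly n A) ⧸ I) * κ E := by
      rw [← map_pow, ← map_sub, ← map_pow, ← hPdef, hPp, map_add, map_mul, map_natCast, map_sub,
        map_pow, map_sub, map_pow]
    have hpp : (p : Polynomial (Poly n A) ⧸ I) ^ J = 0 := by
      have h1 : (p : Polynomial (Poly n A) ⧸ I) = κ (C (p : A)) := by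
        rw [map_natCast, map_natCast]
      rw [h1, ← map_pow, ← map_pow, hpJ, map_zero, map_zero]
    have hb : κ (expand p Xb) ^ L' = 0 := by
      rw [← map_pow, ← map_pow, hXbL, map_zero, map_zero]
    have ha : κ Xa ^ L = 0 := by
      rw [← map_pow, hXaL, map_zero]
    have key := JF.f2_abs (κ q) y (κ (Sg n A)) (κ g) (κ Xa) (κ (expand p Xb)) (κ E) (κ Es)
      (p : Polynomial (Poly n A) ⧸ I) D p J L L' m t tl hqy hS hP' hpp hJ hL hL' ha hb hp2 hmt
      (fun l hl => (htl l hl).2.1)
    have m1 : Ideal.Quotient.mk I w1 = ∑ j ∈ range J, ∑ l ∈ range L',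
        κ (C (((t + j - 1).choose j : A) * (-(p : A)) ^ j *
          ((t + j + l - 1).choose l : A)) * (g * P ^ (p * t - m) * E ^ j * (expand p Xb) ^ l)) *
          y ^ (D * (t + j + l)) := by
      rw [map_sum]
      refine Finset.sum_congr rfl fun j _ => ?_
      rw [map_sum]
      refine Finset.sum_congr rfl fun l _ => ?_
      rw [hmon]
    have m2 : Ideal.Quotient.mk I w2 = ∑ l ∈ range L, ∑ j ∈ range J,
        κ (C (((m + l - 1).choose l : A) *
          (((tl l + j - 1).choose j : A) * (-(p : A)) ^ j)) *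
          (g * Xa ^ l * Sg n A ^ (p * tl l - D * (m + l)) * Es ^ j)) * y ^ (tl l + j) := by
      rw [map_sum]
      refine Finset.sum_congr rfl fun l _ => ?_
      rw [map_sum]
      refine Finset.sum_congr rfl fun j _ => ?_
      rw [hmon]
    rw [m1, m2]
    simp only [map_mul, map_pow, map_neg, map_natCast, hPdef, map_sub] at key ⊢
    exact key
  have h0 := hWF A n p hp2 hunit (w1 - w2) d3 hmem
  have h1 : WFh p (w1 - w2) = 0 := h0
  rw [map_sub, sub_eq_zero] at h1
  exact h1

end Pool.CUBE
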