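import Mathlib

/-!
Core definitions of the cube project (MP_47888e_al, frozen statement S01357).
Everything is at the level of the field `F b K = Frac K[b]`, `K` a number field,
with congruences modulo powers of `p` in the subrings `RD P Δ`.
-/

set_option autoImplicit false

open MvPolynomial

namespace Pool.CUBE

/-! ### Places -/

/-- A place of `K`: a prime `p` and an embedding of `K` in `ℚ_p`. -/
structure Place (K : Type) [Field K] where
  p : ℕ
  hp : Fact p.Prime
  ι : K →+* ℚ_[p]

attribute [instance] Place.hp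

namespace Place
variable {K : Type} [Field K] (P : Place K)

/-- the elements of `K` which are integral at `P` -/
noncomputable def O : Subring K := (PadicInt.subring P.p).comap P.ι

/-- `x` is a unit at `P` -/
def Un (x : K) : Prop := x ≠ 0 ∧ x ∈ P.O ∧ x⁻¹ ∈ P.O

end Place

/-- a property of places which holds for all places with large `p` -/
def Ev {K : Type} [Field K] (S : Place K → Prop) : Prop := ∃ M : ℕ, ∀ P : Place K, M ≤ P.p → S P

/-! ### Rational functions -/

/-- rational functions in the variables `b` -/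
abbrev F (b K : Type) [Field K] : Type := FractionRing (MvPolynomial b K)

/-- polynomials as elements of `F b K` -/
noncomputable abbrev ofP (b K : Type) [Field K] : MvPolynomial b K →+* F b K :=
  algebraMap (MvPolynomial b K) (F b K)

theorem ofP_injective (b K : Type) [Field K] : Function.Injective (ofP b K) :=
  IsFractionRing.injective (MvPolynomial b K) (F b K)

section
variable {b K : Type} [Field K] (P : Place K)

/-- polynomials with coefficients integral at `P` -/
def OQ (b : Type) : Subring (MvPolynomial b K) where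
  carrier := {u | ∀ m, u.coeff m ∈ P.O}
  mul_mem' := by
    classical
    intro u v hu hv m
    rw [MvPolynomial.coeff_mul]
    exact Subring.sum_mem _ fun x _ => P.O.mul_mem (hu _) (hv _)
  one_mem' := by
    classical
    intro m
    rw [MvPolynomial.coeff_one]
    split
    · exact P.O.one_mem
    · exact P.O.zero_mem
  add_mem' := by
    intro u v hu hv m
    rw [MvPolynomial.coeff_add]
    exact P.O.add_mem (hu _) (hv _)
  zero_mem' := by
    intro m
    rw [MvPolynomial.coeff_zero]
    exact P.O.zero_mem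
  neg_mem' := by
    intro u hu m
    rw [MvPolynomial.coeff_neg]
    exact P.O.neg_mem (hu _)

theorem mem_OQ {u : MvPolynomial b K} : u ∈ OQ P b ↔ ∀ m, u.coeff m ∈ P.O := Iff.rfl

/-- `w` divides a power of `Δ` modulo `p` -/
def IsUn (Δ w : MvPolynomial b K) : Prop :=
  w ∈ OQ P b ∧ ∃ k : ℕ, ∃ v ∈ OQ P b, ∃ t ∈ OQ P b, w * v = Δ ^ k + (P.p : MvPolynomial b K) * t

theorem IsUn.one (Δ : MvPolynomial b K) : IsUn P Δ 1 :=
  ⟨(OQ P b).one_mem, 0, 1, (OQ P b).one_mem, 0, (OQ P b).zero_mem, by simp⟩

theorem IsUn.mul {Δ w w' : MvPolynomial b K} (h : IsUn P Δ w) (h' : IsUn P Δ w') :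
    IsUn P Δ (w * w') := by
  obtain ⟨h0, k, v, hv, t, ht, e⟩ := h
  obtain ⟨h0', k', v', hv', t', ht', e'⟩ := h'
  have hC : (P.p : MvPolynomial b K) ∈ OQ P b := natCast_mem _ _
  have hk : Δ ^ k ∈ OQ P b := by
    have : Δ ^ k = w * v - (P.p : MvPolynomial b K) * t := by rw [e]; ring
    rw [this]
    exact (OQ P b).sub_mem ((OQ P b).mul_mem h0 hv) ((OQ P b).mul_mem hC ht)
  have hk' : Δ ^ k' ∈ OQ P b := by
    have : Δ ^ k' = w' * v' - (P.p : MvPolynomial b K) * t' := by rw [e']; ring
    rw [this]
    exact (OQ P b).sub_mem ((OQ P b).mul_mem h0' hv') ((OQ P b).mul_mem hC ht')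
  refine ⟨(OQ P b).mul_mem h0 h0', k + k', v * v', (OQ P b).mul_mem hv hv',
    Δ ^ k * t' + t * Δ ^ k' + (P.p : MvPolynomial b K) * (t * t'), ?_, ?_⟩
  · refine (OQ P b).add_mem ((OQ P b).add_mem ?_ ?_) ?_
    · exact (OQ P b).mul_mem hk ht'
    · exact (OQ P b).mul_mem ht hk'
    · exact (OQ P b).mul_mem hC ((OQ P b).mul_mem ht ht')
  · calc w * w' * (v * v') = (w * v) * (w' * v') := by ring
      _ = (Δ ^ k + (P.p : MvPolynomial b K) * t) * (Δ ^ k' + (P.p : MvPolynomial b K) * t') := by
        rw [e, e']
      _ = _ := by ring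

/-- The ring `RD P Δ`: fractions `u / w`, `u` and `w` integral at `P`, `w` invertible after
inverting `Δ` modulo `p`. -/
def RD (Δ : MvPolynomial b K) : Subring (F b K) where
  carrier := {x | ∃ u ∈ OQ P b, ∃ w, IsUn P Δ w ∧ x * ofP b K w = ofP b K u}
  mul_mem' := by
    rintro x y ⟨u, hu, w, hw, e⟩ ⟨u', hu', w', hw', e'⟩
    refine ⟨u * u', (OQ P b).mul_mem hu hu', w * w', hw.mul P hw', ?_⟩
    rw [map_mul, map_mul, ← e, ← e']
    ring
  one_mem' := ⟨1, (OQ P b).one_mem, 1, IsUn.one P Δ, by simp⟩
  add_mem' := by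
    rintro x y ⟨u, hu, w, hw, e⟩ ⟨u', hu', w', hw', e'⟩
    refine ⟨u * w' + u' * w, (OQ P b).add_mem ((OQ P b).mul_mem hu hw'.1)
      ((OQ P b).mul_mem hu' hw.1), w * w', hw.mul P hw', ?_⟩
    rw [map_mul, map_add, map_mul, map_mul, ← e, ← e']
    ring
  zero_mem' := ⟨0, (OQ P b).zero_mem, 1, IsUn.one P Δ, by simp⟩
  neg_mem' := by
    rintro x ⟨u, hu, w, hw, e⟩
    exact ⟨-u, (OQ P b).neg_mem hu, w, hw, by rw [map_neg, ← e]; ring⟩

/-- congruence to zero modulo `p ^ N` in `RD P Δ` -/
def Sm (Δ : MvPolynomial b K) (N : ℕ) (x : F b K) : Prop :=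
  ∃ y ∈ RD P Δ, x = (P.p : F b K) ^ N * y

/-- elements of complexity at most `C`: `x = u / Δ ^ C`, `u` integral at `P` of degree at
most `C` -/
def Cx (Δ : MvPolynomial b K) (C : ℕ) (x : F b K) : Prop :=
  ∃ u ∈ OQ P b, u.totalDegree ≤ C ∧ x * ofP b K Δ ^ C = ofP b K u

/-- elements with denominator a power of `Δ` (no integrality) -/
def Dn (Δ : MvPolynomial b K) (x : F b K) : Prop :=
  ∃ (C : ℕ) (u : MvPolynomial b K), x * ofP b K Δ ^ C = ofP b K u

end

/-! ### Frobenius -/

section
variable (b K : Type) [Field K]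

theorem frobP_injective (p : ℕ) [hp : Fact p.Prime] :
    Function.Injective ((ofP b K).comp (MvPolynomial.expand p :
      MvPolynomial b K →ₐ[K] MvPolynomial b K).toRingHom) := by
  rw [RingHom.coe_comp]
  exact (ofP_injective b K).comp (MvPolynomial.expand_injective hp.out.pos)

/-- the Frobenius lift `X_i ↦ X_i ^ p`, identity on `K`, of `F b K` -/
noncomputable def fr (p : ℕ) [Fact p.Prime] : F b K →+* F b K :=
  IsFractionRing.lift (frobP_injective b K p)

variable {b K}

theorem fr_ofP (p : ℕ) [Fact p.Prime] (u : MvPolynomial b K) :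
    fr b K p (ofP b K u) = ofP b K (MvPolynomial.expand p u) :=
  IsFractionRing.lift_algebraMap _ _

/-! ### Derivations -/

/-- the derivation `X_i d/dX_i` of the polynomial ring -/
noncomputable def thP (i : b) : Derivation K (MvPolynomial b K) (MvPolynomial b K) :=
  (X i : MvPolynomial b K) • MvPolynomial.pderiv i

/-- auxiliary ring hom `u ↦ u + ε θ_i u` -/
noncomputable def thAux (i : b) : MvPolynomial b K →+* TrivSqZeroExt (F b K) (F b K) where
  toFun u := TrivSqZeroExt.inl (ofP b K u) + TrivSqZeroExt.inr (ofP b K (thP i u))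
  map_one' := by
    rw [map_one, Derivation.map_one_eq_zero, map_zero]
    ext <;> simp
  map_mul' u v := by
    have h : ofP b K (thP i (u * v)) =
        ofP b K u * ofP b K (thP i v) + ofP b K v * ofP b K (thP i u) := by
      rw [Derivation.leibniz, smul_eq_mul, smul_eq_mul, map_add, map_mul, map_mul]
    rw [h, map_mul]
    generalize ofP b K u = u', ofP b K v = v', ofP b K (thP i u) = u'', ofP b K (thP i v) = v''
    ext
    · simp
    · simp
      ring
  map_zero' := by
    rw [map_zero, map_zero, map_zero]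
    simp
  map_add' u v := by
    rw [map_add, map_add, map_add]
    generalize ofP b K u = u', ofP b K v = v', ofP b K (thP i u) = u'', ofP b K (thP i v) = v''
    ext <;> simp

theorem thAux_fst (i : b) (u : MvPolynomial b K) : (thAux i u).fst = ofP b K u := by
  change (TrivSqZeroExt.inl (ofP b K u) + TrivSqZeroExt.inr (ofP b K (thP i u))).fst = _
  generalize ofP b K u = u', ofP b K (thP i u) = u''
  simp

theorem thAux_snd (i : b) (u : MvPolynomial b K) : (thAux i u).snd = ofP b K (thP i u) := by
  change (TrivSqZeroExt.inl (ofP b K u) + TrivSqZeroExt.inr (ofP b K (thP i u))).snd = _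
  generalize ofP b K u = u', ofP b K (thP i u) = u''
  simp

theorem thAux_isUnit (i : b) (u : nonZeroDivisors (MvPolynomial b K)) :
    IsUnit (thAux i (u : MvPolynomial b K)) := by
  rw [TrivSqZeroExt.isUnit_iff_isUnit_fst, thAux_fst, isUnit_iff_ne_zero]
  intro h
  exact nonZeroDivisors.coe_ne_zero u ((ofP_injective b K) (by rw [h, map_zero]))

/-- the ring hom `x ↦ x + ε θ_i x` of `F b K` -/
noncomputable def thHom (i : b) : F b K →+* TrivSqZeroExt (F b K) (F b K) :=
  IsLocalization.lift (M := nonZeroDivisors (MvPolynomial b K)) (thAux_isUnit i)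

/-- the derivation `θ_i = X_i d/dX_i` of `F b K` -/
noncomputable def th (i : b) (x : F b K) : F b K := (thHom i x).snd

theorem thHom_ofP (i : b) (u : MvPolynomial b K) : thHom i (ofP b K u) = thAux i u :=
  IsLocalization.lift_eq _ _

theorem thHom_fst (i : b) (x : F b K) : (thHom i x).fst = x := by
  obtain ⟨u, w, hw, rfl⟩ := IsFractionRing.div_surjective (A := MvPolynomial b K) x
  have hw0 : ofP b K w ≠ 0 := by
    intro h
    exact nonZeroDivisors.coe_ne_zero ⟨w, hw⟩ ((ofP_injective b K) (by rw [h, map_zero]))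
  have h1 : thHom i (ofP b K u / ofP b K w) * thHom i (ofP b K w) = thHom i (ofP b K u) := by
    rw [← map_mul, div_mul_cancel₀ _ hw0]
  have h2 := congrArg TrivSqZeroExt.fst h1
  rw [TrivSqZeroExt.fst_mul, thHom_ofP, thHom_ofP, thAux_fst, thAux_fst] at h2
  exact (eq_div_iff hw0).2 h2

theorem th_ofP (i : b) (u : MvPolynomial b K) : th i (ofP b K u) = ofP b K (thP i u) := by
  rw [th, thHom_ofP, thAux_snd]

theorem th_mul (i : b) (x y : F b K) : th i (x * y) = th i x * y + x * th i y := by
  rw [th, map_mul, TrivSqZeroExt.snd_mul, thHom_fst, thHom_fst]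
  simp only [th, smul_eq_mul, MulOpposite.smul_eq_mul_unop, MulOpposite.unop_op]
  ring

theorem th_add (i : b) (x y : F b K) : th i (x + y) = th i x + th i y := by
  rw [th, map_add, TrivSqZeroExt.snd_add]
  rfl

theorem th_one (i : b) : th i (1 : F b K) = 0 := by
  rw [th, map_one]
  simp

theorem th_zero (i : b) : th i (0 : F b K) = 0 := by
  rw [th, map_zero]
  simp

/-! ### Expansion along the first variable -/

/-- polynomials in `z = X none` and the other variables as Laurent series in `z` -/
noncomputable def exP (b K : Type) [Field K] :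
    MvPolynomial (Option b) K →+* LaurentSeries (F b K) :=
  ((HahnSeries.ofPowerSeries ℤ (F b K)).comp
    ((Polynomial.coeToPowerSeries.ringHom (R := F b K)).comp
      (Polynomial.mapRingHom (ofP b K)))).comp
    (MvPolynomial.optionEquivLeft K b).toAlgHom.toRingHom

theorem exP_injective (b K : Type) [Field K] : Function.Injective (exP b K) := by
  unfold exP
  rw [RingHom.coe_comp, RingHom.coe_comp, RingHom.coe_comp]
  refine (HahnSeries.ofPowerSeries_injective.comp
    (Function.Injective.comp ?_ ?_)).comp (MvPolynomial.optionEquivLeft K b).injective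
  · exact Polynomial.coe_injective _
  · exact Polynomial.map_injective _ (ofP_injective b K)

/-- the Laurent expansion at `z = 0`, `z = X none` -/
noncomputable def ex (b K : Type) [Field K] : F (Option b) K →+* LaurentSeries (F b K) :=
  IsFractionRing.lift (exP_injective b K)

end

end Pool.CUBE
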